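import Pool.Agent.DgP.Defs
import Pool.Agent.DgE.OD
import Pool.Agent.ECD.PowMod
import Pool.Agent.ECD.GPowA
import Pool.Agent.ECD.EcCount
import Pool.Agent.LPC.SumPoly

/-!
# Package DgP-StDef: the coefficients after `j` steps are definable

`p` a prime. *`powB_def`*: bounded powers: `x ^ y = x ^ y % (M + 1)` if `x ^ y ≤ M` (`pow_mod_def`);
the condition `x ^ y ≤ M` is `Delta0`: for `x ≥ 2` it says `y ≤ lg M` and, for all `i < y`,
`(x ^ i % (M + 1)) * x ≤ M`; or: for `y ≤ lg M` the number `x ^ y` is less than `(M + 2) ^ …`: any way.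
(`x ≤ 1`: trivial.) ∎

*`val_def`*: the exponent of the prime `p` in `a > 0` is the largest `v ≤ lg a` such that `p ^ v ∣ a`
(`powB_def` with `M = a`). ∎

*`st_form`*: `a i = 0`: all `st e p a j i = 0`. `a i > 0`, `v` the exponent of `p` in `a i`,
`a₀ = a i / p ^ v`: for `j ≤ v`: `a i / p ^ j`; for `j > v`, `s = (j - v) % e i`: `a₀` if `s = 0`, else
`a₀ p ^ (e i - s)`. Induction on `j`. ∎

*`st_def`*: from `st_form`; `p ^ (e i - s)` by a case distinction over `s < e i` (constants).
*`ex_def`*: `dfun_sumPoly`: `j ≤ lg (M u) + 1`, and `nd p (st …)` is a sum of `n` indicators. ∎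

Difficulty: 1.8 h.
-/

set_option autoImplicit false

namespace Pool.Agent.DgP

open Finset Pool.Agent.Grz Pool.Agent.GAvg Pool.Agent.PTr Pool.Agent.MTr Pool.Agent.LPC
  Pool.Agent.ECD

variable {n : ℕ} {e : Fin n → ℕ} {N : ℕ}

private theorem StDef_pow_le {x y M : ℕ} (hx : 1 ≤ x) :
    x ^ y ≤ M ↔ 1 ≤ M ∧ ∀ i, i ≤ y → i < y → x ^ i % (M + 1) * x ≤ M := by
  constructor
  · intro h
    refine ⟨(Nat.one_le_pow y x hx).trans h, fun i _ hi => ?_⟩
    calc x ^ i % (M + 1) * x ≤ x ^ i * x := Nat.mul_le_mul_right _ (Nat.mod_le _ _)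
      _ = x ^ (i + 1) := (pow_succ x i).symm
      _ ≤ x ^ y := Nat.pow_le_pow_right hx hi
      _ ≤ M := h
  · rintro ⟨h0, h⟩
    have key : ∀ i, i ≤ y → x ^ i ≤ M := by
      intro i
      induction i with
      | zero => intro _; rw [pow_zero]; exact h0
      | succ i ih =>
        intro hi
        have h1 := ih (by omega)
        have h2 := h i (by omega) (by omega)
        rw [Nat.mod_eq_of_lt (by omega)] at h2
        rw [pow_succ]
        exact h2
    exact key y le_rfl

open scoped Classical in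
theorem powB_def {x y M : (Fin N → ℕ) → ℕ} (hx : DFun N x) (hy : DFun N y) (hM : DFun N M) :
    DFun N (fun u => if x u ^ y u ≤ M u then x u ^ y u else 0) ∧
      Delta0 N (fun u => x u ^ y u ≤ M u) := by
  have h1 : DFun N (fun u => M u + 1) := hM.add (DFun.const 1)
  have h2 : Delta0 N (fun u => x u ^ y u ≤ M u) := by
    have h3 : DFun (N + 1) (fun w : Fin (N + 1) → ℕ =>
        x (fun i => w i.succ) ^ (w 0) % (M (fun i => w i.succ) + 1)) :=
      pow_mod_def hx.weak (DFun.proj 0) h1.weak (fun w => Nat.succ_pos _)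
    have h5 := Delta0.ballFun (P := fun i u => i < y u → x u ^ i % (M u + 1) * x u ≤ M u) hy
      ((Delta0.ltFun (DFun.proj 0) hy.weak).imp (Delta0.leFun (h3.mul hx.weak) hM.weak))
    have h6 := ((Delta0.eqFun hx (DFun.const 0)).and
      ((Delta0.eqFun hy (DFun.const 0)).not.or (Delta0.leFun (DFun.const 1) hM))).or
      ((Delta0.leFun (DFun.const 1) hx).and ((Delta0.leFun (DFun.const 1) hM).and h5))
    refine h6.of_iff fun u => ?_
    rcases Nat.eq_zero_or_pos (x u) with h | h
    · rw [h]
      rcases Nat.eq_zero_or_pos (y u) with h7 | h7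
      · rw [h7, pow_zero]
        constructor
        · intro h8
          exact Or.inl ⟨rfl, Or.inr h8⟩
        · rintro (⟨-, h8 | h8⟩ | ⟨h8, -⟩)
          · exact absurd rfl h8
          · exact h8
          · omega
      · rw [zero_pow h7.ne']
        exact ⟨fun _ => Or.inl ⟨rfl, Or.inl h7.ne'⟩, fun _ => Nat.zero_le _⟩
    · rw [StDef_pow_le h]
      constructor
      · rintro ⟨h7, h8⟩
        exact Or.inr ⟨h, h7, h8⟩
      · rintro (⟨h7, -⟩ | ⟨-, h7, h8⟩)
        · omega
        · exact ⟨h7, h8⟩
  refine ⟨?_, h2⟩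
  refine dfun_congr (DFun.ite h2 (pow_mod_def hx hy h1 fun u => Nat.succ_pos _) (DFun.const 0))
    fun u => ?_
  by_cases h : x u ^ y u ≤ M u
  · rw [if_pos h, if_pos h, Nat.mod_eq_of_lt (by omega)]
  · rw [if_neg h, if_neg h]

/-- divisibility by powers -/
private theorem StDef_dvd {x y a : (Fin N → ℕ) → ℕ} (hx : DFun N x) (hy : DFun N y)
    (ha : DFun N a) : Delta0 N (fun u => 0 < a u ∧ x u ^ y u ∣ a u) := by
  classical
  obtain ⟨h1, h2⟩ := powB_def hx hy ha
  refine ((Delta0.ltFun (DFun.const 0) ha).and (h2.and (delta_dvd h1 ha))).of_iff fun u => ?_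
  constructor
  · rintro ⟨h3, h4⟩
    have h5 := Nat.le_of_dvd h3 h4
    rw [if_pos h5]
    exact ⟨h3, h5, h4⟩
  · rintro ⟨h3, h4, h5⟩
    rw [if_pos h4] at h5
    exact ⟨h3, h5⟩

open scoped Classical in
theorem val_def {p a : (Fin N → ℕ) → ℕ} (hp : DFun N p) (ha : DFun N a) :
    DFun N (fun u => if (p u).Prime then (a u).factorization (p u) else 0) := by
  refine DFun.ofGraph (b := a) ha (fun u => ?_) ?_
  · split_ifs with h
    · rcases Nat.eq_zero_or_pos (a u) with h1 | h1
      · rw [h1]; simp
      · exact (Nat.factorization_lt (p u) h1.ne').le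
    · exact Nat.zero_le _
  · have hv : DFun (N + 1) (fun w : Fin (N + 1) → ℕ => w 0) := DFun.proj 0
    have h1 := StDef_dvd hp.weak hv ha.weak
    have h2 := StDef_dvd hp.weak (hv.add (DFun.const 1)) ha.weak
    have h3 := ((delta_prime hp.weak).and ((Delta0.ltFun (DFun.const 0) ha.weak).and
      (h1.and h2.not))).or (((delta_prime hp.weak).and
        (Delta0.ltFun (DFun.const 0) ha.weak)).not.and (Delta0.eqFun hv (DFun.const 0)))
    refine h3.of_iff fun w => ?_
    by_cases hpr : (p fun i => w i.succ).Prime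
    · rw [if_pos hpr]
      rcases Nat.eq_zero_or_pos (a fun i => w i.succ) with h4 | h4
      · rw [h4]
        simp
      · rw [hpr.pow_dvd_iff_le_factorization h4.ne', hpr.pow_dvd_iff_le_factorization h4.ne']
        constructor
        · intro h5
          exact Or.inl ⟨hpr, h4, ⟨h4, h5.le⟩, fun h6 => by omega⟩
        · rintro (⟨-, -, ⟨-, h5⟩, h6⟩ | ⟨h5, -⟩)
          · have h7 : ¬ w 0 + 1 ≤ (a fun i => w i.succ).factorization (p fun i => w i.succ) :=
              fun h8 => h6 ⟨h4, h8⟩
            omega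
          · exact absurd ⟨hpr, h4⟩ h5
    · rw [if_neg hpr]
      constructor
      · intro h5
        exact Or.inr ⟨fun h6 => hpr h6.1, h5⟩
      · rintro (⟨h5, -⟩ | ⟨-, h5⟩)
        · exact absurd h5 hpr
        · exact h5

private theorem StDef_step (p A₀ e s : ℕ) (hp : p.Prime) (hA : ¬ p ∣ A₀) (he : 0 < e) (hs : s < e) :
    (if p ∣ (if s = 0 then A₀ else A₀ * p ^ (e - s)) then
      (if s = 0 then A₀ else A₀ * p ^ (e - s)) / p
      else (if s = 0 then A₀ else A₀ * p ^ (e - s)) * p ^ (e - 1)) =
    if (s + 1) % e = 0 then A₀ else A₀ * p ^ (e - (s + 1) % e) := by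
  by_cases h0 : s = 0
  · subst h0
    simp only [if_true, if_neg hA]
    by_cases h1 : e = 1
    · subst h1
      simp
    · rw [Nat.mod_eq_of_lt (by omega : 0 + 1 < e)]
      simp
  · rw [if_neg h0]
    have h1 : p ∣ A₀ * p ^ (e - s) := Dvd.dvd.mul_left (dvd_pow_self p (by omega)) _
    have h2 : A₀ * p ^ (e - s) / p = A₀ * p ^ (e - s - 1) := by
      obtain ⟨k, hk⟩ : ∃ k, e - s = k + 1 := ⟨e - s - 1, by omega⟩
      rw [hk, pow_succ, ← mul_assoc, Nat.mul_div_cancel _ hp.pos, Nat.add_sub_cancel]
    rw [if_pos h1, h2]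
    by_cases h3 : s + 1 = e
    · rw [h3, Nat.mod_self, if_pos rfl]
      have h4 : e - s - 1 = 0 := by omega
      rw [h4, pow_zero, mul_one]
    · rw [Nat.mod_eq_of_lt (by omega), if_neg (by omega), Nat.sub_sub]

theorem st_form {p : ℕ} (hp : p.Prime) (he : ∀ i, 0 < e i) (a : Fin n → ℕ) (j : ℕ) (i : Fin n) :
    st e p a j i = if j ≤ (a i).factorization p then a i / p ^ j
      else if (j - (a i).factorization p) % e i = 0 then a i / p ^ (a i).factorization p
      else a i / p ^ (a i).factorization p * p ^ (e i - (j - (a i).factorization p) % e i) := by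
  rcases Nat.eq_zero_or_pos (a i) with h0 | h0
  · have h1 : ∀ j, st e p a j i = 0 := by
      intro j
      induction j with
      | zero => exact h0
      | succ j ih =>
        change stp e p (st e p a j) i = 0
        unfold stp
        rw [ih]
        simp
    rw [h1 j, h0]
    simp
  obtain ⟨v, hv⟩ : ∃ v, v = (a i).factorization p := ⟨_, rfl⟩
  rw [← hv]
  have hA : ¬ p ∣ a i / p ^ v := by
    rw [hv]
    exact Nat.not_dvd_ordCompl hp h0.ne'
  induction j with
  | zero =>
    rw [if_pos (Nat.zero_le _), pow_zero, Nat.div_one]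
    rfl
  | succ j ih =>
    change stp e p (st e p a j) i = _
    unfold stp
    rw [ih]
    by_cases h1 : j + 1 ≤ v
    · have h2 : p ∣ a i / p ^ j := by
        have h3 : p ^ (j + 1) ∣ a i := (hp.pow_dvd_iff_le_factorization h0.ne').2 (by omega)
        obtain ⟨c, hc⟩ := h3
        rw [hc, pow_succ, mul_assoc, Nat.mul_div_cancel_left _ (pow_pos hp.pos j)]
        exact Nat.dvd_mul_right p c
      rw [if_pos (by omega : j ≤ v), if_pos h2, if_pos h1, Nat.div_div_eq_div_mul, pow_succ]
    · rw [if_neg h1]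
      by_cases h2 : j ≤ v
      · have h3 : j = v := by omega
        have h4 := StDef_step p (a i / p ^ v) (e i) 0 hp hA (he i) (he i)
        simp only [if_true] at h4
        rw [if_pos h2, h3]
        have h5 : v + 1 - v = 0 + 1 := by omega
        rw [h5]
        exact h4
      · rw [if_neg h2]
        have h4 := StDef_step p (a i / p ^ v) (e i) ((j - v) % e i) hp hA (he i)
          (Nat.mod_lt _ (he i))
        rw [h4]
        have h5 : ((j - v) % e i + 1) % e i = (j + 1 - v) % e i := by
          rw [Nat.mod_add_mod]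
          congr 1
          omega
        rw [h5]

/-- division by powers -/
private theorem StDef_div {x y a : (Fin N → ℕ) → ℕ} (hx : DFun N x) (hx1 : ∀ u, 1 ≤ x u)
    (hy : DFun N y) (ha : DFun N a) : DFun N (fun u => a u / x u ^ y u) := by
  classical
  obtain ⟨h1, h2⟩ := powB_def hx hy ha
  refine dfun_congr (DFun.ite h2 (ha.div (h1.sub (DFun.const 1))) (DFun.const 0)) fun u => ?_
  by_cases h : x u ^ y u ≤ a u
  · rw [if_pos h, if_pos h, Nat.sub_add_cancel (Nat.one_le_pow _ _ (hx1 u))]
  · rw [if_neg h, Nat.div_eq_of_lt (by omega)]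

private theorem StDef_pow {x s : (Fin N → ℕ) → ℕ} (hx : DFun N x) (hs : DFun N s) (E : ℕ) :
    DFun N (fun u => if s u < E then x u ^ (E - s u) else 0) := by
  have h1 : DFun N (fun u => ∑ k ∈ range E, if s u = k then x u ^ (E - k) else 0) :=
    DFun.finSum _ fun k => DFun.ite (Delta0.eqFun hs (DFun.const k)) (DFun.powConst hx _)
      (DFun.const 0)
  refine dfun_congr h1 fun u => ?_
  rw [Finset.sum_ite_eq]
  simp only [mem_range]

open scoped Classical in
theorem st_def (he : ∀ i, 0 < e i) {p j : (Fin N → ℕ) → ℕ} {a : Fin n → (Fin N → ℕ) → ℕ}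
    (hp : DFun N p) (hj : DFun N j) (ha : ∀ i, DFun N (a i)) (i : Fin n) :
    DFun N (fun u => if (p u).Prime then st e (p u) (fun i => a i u) (j u) i else 0) := by
  -- the prime, or one
  have hq : DFun N (fun u => if (p u).Prime then p u else 1) :=
    DFun.ite (delta_prime hp) hp (DFun.const 1)
  have hq1 : ∀ u, 1 ≤ if (p u).Prime then p u else 1 := fun u => by
    split_ifs with h
    · exact h.one_le
    · exact le_rfl
  have hv := val_def hp (ha i)
  have hs : DFun N (fun u => (j u - if (p u).Prime then (a i u).factorization (p u) else 0) %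
      e i) := DFun.modPos (hj.sub hv) (DFun.const (e i)) (fun _ => he i)
  have hA := StDef_div hq hq1 hv (ha i)
  have h1 := DFun.ite (delta_prime hp) (DFun.ite (Delta0.leFun hj hv) (StDef_div hq hq1 hj (ha i))
    (DFun.ite (Delta0.eqFun hs (DFun.const 0)) hA (hA.mul (StDef_pow hq hs (e i)))))
    (DFun.const 0)
  refine dfun_congr h1 fun u => ?_
  by_cases h : (p u).Prime
  · rw [if_pos h, if_pos h, st_form h he]
    simp only [if_pos h]
    rw [if_pos (Nat.mod_lt _ (he i))]
  · rw [if_neg h, if_neg h]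

open scoped Classical in
theorem ex_def (he : ∀ i, 0 < e i) {p j M : (Fin N → ℕ) → ℕ} {a : Fin n → (Fin N → ℕ) → ℕ}
    (hp : DFun N p) (hj : DFun N j) (hM : DFun N M) (hjM : ∀ u, j u ≤ lg (M u) + 1)
    (ha : ∀ i, DFun N (a i)) :
    DFun N (fun u => if (p u).Prime then ex e (p u) (fun i => a i u) (j u) else 0) := by
  have h1 : DFun N (fun u => ∑ l ∈ range (j u),
      if (p u).Prime then nd (p u) (st e (p u) (fun i => a i u) l) else 0) := by
    refine dfun_sumPoly 1 (g := fun l u =>
      if (p u).Prime then nd (p u) (st e (p u) (fun i => a i u) l) else 0) ?_ hj hM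
      (fun u => by rw [pow_one]; exact hjM u)
    have h2 : ∀ i, DFun (N + 1) (fun w : Fin (N + 1) → ℕ =>
        if (p fun i => w i.succ).Prime then
          st e (p fun i => w i.succ) (fun i => a i fun i => w i.succ) (w 0) i else 0) :=
      fun i => st_def he hp.weak (DFun.proj 0) (fun i => (ha i).weak) i
    have h3 : DFun (N + 1) (fun w : Fin (N + 1) → ℕ => ∑ i : Fin n,
        if (p fun i => w i.succ).Prime ∧ (p fun i => w i.succ) ∣
          (if (p fun i => w i.succ).Prime then
          st e (p fun i => w i.succ) (fun i => a i fun i => w i.succ) (w 0) i else 0) then 1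
        else 0) :=
      DFun.finSum _ fun i => DFun.ite ((delta_prime hp.weak).and (delta_dvd hp.weak (h2 i)))
        (DFun.const 1) (DFun.const 0)
    refine dfun_congr h3 fun w => ?_
    by_cases h : (p fun i => w i.succ).Prime
    · simp only [if_pos h]
      unfold nd
      rw [Finset.card_filter]
      refine Finset.sum_congr rfl fun i _ => ?_
      simp only [h, true_and]
    · simp [h]
  refine dfun_congr h1 fun u => ?_
  by_cases h : (p u).Prime
  · simp only [if_pos h]
    rfl
  · simp [h]

end Pool.Agent.DgP
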