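import Mathlib

/-!
# Diagonal equations modulo prime powers: definitions
-/

set_option autoImplicit false

namespace Pool.Agent.DgP

open Finset

variable {n : ℕ}

/-- the number of the solutions of `∑ a i x i ^ e i = b` modulo `m` -/
def NM (e : Fin n → ℕ) (m : ℕ) (a : Fin n → ℕ) (b : ℕ) : ℕ :=
  #{x ∈ Fintype.piFinset (fun _ : Fin n => range m) | ∑ i, a i * x i ^ e i ≡ b [MOD m]}

/-- the number of the solutions modulo `p ^ k` with a coordinate `x i` prime to `p` for which `a i`
is prime to `p` -/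
def NU (e : Fin n → ℕ) (p k : ℕ) (a : Fin n → ℕ) (b : ℕ) : ℕ :=
  #{x ∈ Fintype.piFinset (fun _ : Fin n => range (p ^ k)) |
    ∑ i, a i * x i ^ e i ≡ b [MOD p ^ k] ∧ ∃ i, ¬ p ∣ a i ∧ ¬ p ∣ x i}

/-- the new coefficients after the substitution `x i = p y i` for the `i` with `p ∤ a i` and
division by `p` -/
def stp (e : Fin n → ℕ) (p : ℕ) (a : Fin n → ℕ) : Fin n → ℕ :=
  fun i => if p ∣ a i then a i / p else a i * p ^ (e i - 1)

/-- the coefficients after `j` steps -/
def st (e : Fin n → ℕ) (p : ℕ) (a : Fin n → ℕ) : ℕ → Fin n → ℕ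
  | 0 => a
  | j + 1 => stp e p (st e p a j)

/-- the number of the coefficients divisible by `p` -/
def nd (p : ℕ) (a : Fin n → ℕ) : ℕ := #{i : Fin n | p ∣ a i}

/-- the sum of these numbers over the first `j` steps -/
def ex (e : Fin n → ℕ) (p : ℕ) (a : Fin n → ℕ) (j : ℕ) : ℕ := ∑ l ∈ range j, nd p (st e p a l)

end Pool.Agent.DgP
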