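import Pool.Agent.DgP.NuDef
import Pool.Agent.DgE.CrtN
import Pool.Agent.PtC.Final

/-!
# Package DgP-Final: diagonal equations modulo all numbers

*`nm_pp`*: `nm_sum`: the sum over `j < k ≤ lg M` is `dfun_sumPoly`; the term: `p ^ j` and
`p ^ (ex …)` by `powB_def` (`p ^ j ≤ M`; `ex e p a j ≤ n j`, so `p ^ ex ≤ (M + 1) ^ n`), `st_def`,
`ex_def`, `nu_def` with `k - j`, `b / p ^ j` (`DFun.comp`; all these are families over `Fin N → ℕ`, so
apply them with `N + 1` variables, the first one is `j`; to have `j ≤ lg M + 1` for all arguments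
take `min j (lg M + 1)`). The value is at most `M ^ n`. ∎

*`nm_split`*: for `m > 0`: `NM e m a b = ∏ p ∈ m.primeFactors, NM e (p ^ m.factorization p) a b`: by
`crtn_mul` and induction (`Nat.recOnPosPrimePosCoprime`, or over the set of prime factors:
`Nat.factorization_prod_pow_eq_self`, products of pairwise coprime numbers). ∎

*`nm_def`*: `m = 0`: the range is empty, so the value is `0` for `n ≥ 1` and `1` or `0` for `n = 0`
(`b = 0` or not). `m > 0`: `nm_split`, `dfun_prodPF` (PtC/Final) with `nm_pp`, `k = v_p(m)` (`val_def`),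
`M = m`, and the bound `m ^ n` (replace `m` by `if m = 0 then 1 else m`). ∎

Difficulty: 1.8 h.
-/

set_option autoImplicit false

namespace Pool.Agent.DgP

open Finset Pool.Agent.Grz Pool.Agent.GAvg Pool.Agent.PTr Pool.Agent.MTr Pool.Agent.LPC
  Pool.Agent.ECD Pool.Agent.DgE

variable {n : ℕ} {e : Fin n → ℕ} {N : ℕ}

private theorem divAny_Final {f g : (Fin N → ℕ) → ℕ} (hf : DFun N f) (hg : DFun N g) :
    DFun N (fun u => f u / g u) := by
  classical
  have h := DFun.ite (Delta0.eqFun hg (DFun.const 0)) (DFun.const 0)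
    (hf.div (hg.sub (DFun.const 1)))
  refine dfun_congr h fun u => ?_
  by_cases h0 : g u = 0
  · rw [if_pos h0, h0, Nat.div_zero]
  · rw [if_neg h0, Nat.sub_add_cancel (Nat.pos_of_ne_zero h0)]

private theorem le_lg_Final {p k M : ℕ} (hp : p.Prime) (h : p ^ k ≤ M) : k ≤ lg M := by
  have hM : M ≠ 0 := by
    have := pow_pos hp.pos k
    omega
  exact (Nat.le_log_iff_pow_le (by norm_num) hM).2
    ((Nat.pow_le_pow_left hp.two_le k).trans h)

private theorem ex_le_Final (p : ℕ) (a : Fin n → ℕ) (j : ℕ) : ex e p a j ≤ n * j := by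
  unfold ex
  calc ∑ l ∈ range j, nd p (st e p a l) ≤ ∑ _l ∈ range j, n := by
        refine Finset.sum_le_sum fun l _ => ?_
        unfold nd
        exact (Finset.card_filter_le _ _).trans (by rw [Finset.card_univ, Fintype.card_fin])
    _ = n * j := by rw [Finset.sum_const, Finset.card_range, smul_eq_mul, mul_comm]

open scoped Classical in
/-- the powers with the exponents `ex` -/
private theorem pex_Final (he : ∀ i, 0 < e i) {p j M : (Fin N → ℕ) → ℕ}
    {a : Fin n → (Fin N → ℕ) → ℕ} (hp : DFun N p) (hj : DFun N j) (hM : DFun N M)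
    (ha : ∀ i, DFun N (a i)) :
    DFun N (fun u => if (p u).Prime ∧ p u ^ j u ≤ M u then
      p u ^ ex e (p u) (fun i => a i u) (j u) else 0) := by
  have hJ : DFun N (fun u => min (j u) (lg (M u) + 1)) :=
    DFun.min hj ((DFun.lg hM).add (DFun.const 1))
  have hE := ex_def he hp hJ hM (fun u => min_le_right _ _) ha
  have hP := (powB_def hp hE (DFun.powConst (hM.add (DFun.const 1)) n)).1
  have h := DFun.ite ((delta_prime hp).and (powB_def hp hj hM).2) hP (DFun.const 0)
  refine dfun_congr h fun u => ?_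
  by_cases hc : (p u).Prime ∧ p u ^ j u ≤ M u
  · rw [if_pos hc, if_pos hc]
    have h1 := le_lg_Final hc.1 hc.2
    have h2 : min (j u) (lg (M u) + 1) = j u := min_eq_left (h1.trans (Nat.le_succ _))
    rw [if_pos hc.1, h2]
    have h3 : p u ^ ex e (p u) (fun i => a i u) (j u) ≤ (M u + 1) ^ n := by
      calc p u ^ ex e (p u) (fun i => a i u) (j u) ≤ p u ^ (n * j u) :=
            Nat.pow_le_pow_right hc.1.pos (ex_le_Final _ _ _)
        _ = (p u ^ j u) ^ n := by rw [mul_comm, pow_mul]
        _ ≤ (M u + 1) ^ n := Nat.pow_le_pow_left (hc.2.trans (Nat.le_succ _)) n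
    rw [if_pos h3]
  · rw [if_neg hc, if_neg hc]

open scoped Classical in
/-- the terms of the sum -/
private theorem term_Final (he : ∀ i, 0 < e i) {p k b M j : (Fin N → ℕ) → ℕ}
    {a : Fin n → (Fin N → ℕ) → ℕ} (hp : DFun N p) (hk : DFun N k) (hb : DFun N b)
    (hM : DFun N M) (hj : DFun N j) (ha : ∀ i, DFun N (a i)) :
    DFun N (fun u => if ((p u).Prime ∧ p u ^ k u ≤ M u) ∧ j u < k u ∧ p u ^ j u ∣ b u then
      p u ^ ex e (p u) (fun i => a i u) (j u) *
        NU e (p u) (k u - j u) (st e (p u) (fun i => a i u) (j u)) (b u / p u ^ j u) else 0) := by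
  have hP := (powB_def hp hj hM).1
  have h1 := pex_Final he hp hj hM ha
  have h2 := nu_def he hp (hk.sub hj) (divAny_Final hb hP) hM (fun i => st_def he hp hj ha i)
  have hcond : Delta0 N (fun u => ((p u).Prime ∧ p u ^ k u ≤ M u) ∧ j u < k u ∧
      p u ^ j u ∣ b u) := by
    have h3 := ((delta_prime hp).and (powB_def hp hk hM).2).and
      ((Delta0.ltFun hj hk).and (delta_dvd hP hb))
    refine h3.of_iff fun u => ?_
    constructor
    · rintro ⟨h4, h5, h6⟩
      have h7 : p u ^ j u ≤ M u := (Nat.pow_le_pow_right h4.1.pos h5.le).trans h4.2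
      refine ⟨h4, h5, ?_⟩
      rw [if_pos h7]
      exact h6
    · rintro ⟨h4, h5, h6⟩
      have h7 : p u ^ j u ≤ M u := (Nat.pow_le_pow_right h4.1.pos h5.le).trans h4.2
      refine ⟨h4, h5, ?_⟩
      rw [if_pos h7] at h6
      exact h6
  have h := DFun.ite hcond (h1.mul h2) (DFun.const 0)
  refine dfun_congr h fun u => ?_
  by_cases hc : ((p u).Prime ∧ p u ^ k u ≤ M u) ∧ j u < k u ∧ p u ^ j u ∣ b u
  · rw [if_pos hc, if_pos hc]
    obtain ⟨h4, h5, h6⟩ := hc
    have h7 : p u ^ j u ≤ M u := (Nat.pow_le_pow_right h4.1.pos h5.le).trans h4.2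
    have h8 : p u ^ (k u - j u) ≤ M u :=
      (Nat.pow_le_pow_right h4.1.pos (Nat.sub_le _ _)).trans h4.2
    have h9 : (fun i => if (p u).Prime then st e (p u) (fun i => a i u) (j u) i else 0) =
        st e (p u) (fun i => a i u) (j u) := by
      funext i
      rw [if_pos h4.1]
    rw [if_pos ⟨h4.1, h7⟩, if_pos ⟨h4.1, Nat.sub_pos_of_lt h5, h8⟩, h9, if_pos h7]
  · rw [if_neg hc, if_neg hc]

open scoped Classical in
theorem nm_pp (he : ∀ i, 0 < e i) {p k b M : (Fin N → ℕ) → ℕ} {a : Fin n → (Fin N → ℕ) → ℕ}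
    (hp : DFun N p) (hk : DFun N k) (hb : DFun N b) (hM : DFun N M) (ha : ∀ i, DFun N (a i)) :
    DFun N (fun u => if (p u).Prime ∧ p u ^ k u ≤ M u then
      NM e (p u ^ k u) (fun i => a i u) (b u) else 0) := by
  have ht := term_Final (N := N + 1) he (p := fun w => p fun i => w i.succ)
    (k := fun w => k fun i => w i.succ) (b := fun w => b fun i => w i.succ)
    (M := fun w => M fun i => w i.succ) (j := fun w => w 0)
    (a := fun i w => a i fun i => w i.succ) hp.weak hk.weak hb.weak hM.weak (DFun.proj 0)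
    (fun i => (ha i).weak)
  have hs := dfun_sumPoly (n := N) 1 (S := fun u => min (k u) (lg (M u) + 1)) (N := M)
    (g := fun j u => if ((p u).Prime ∧ p u ^ k u ≤ M u) ∧ j < k u ∧ p u ^ j ∣ b u then
      p u ^ ex e (p u) (fun i => a i u) j *
        NU e (p u) (k u - j) (st e (p u) (fun i => a i u) j) (b u / p u ^ j) else 0)
    ht (DFun.min hk ((DFun.lg hM).add (DFun.const 1))) hM
    (fun u => (min_le_right _ _).trans (by rw [pow_one]))
  have hl := DFun.ite (delta_dvd (powB_def hp hk hM).1 hb) (pex_Final he hp hk hM ha)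
    (DFun.const 0)
  have h := DFun.ite ((delta_prime hp).and (powB_def hp hk hM).2) (hs.add hl) (DFun.const 0)
  refine dfun_congr h fun u => ?_
  by_cases hc : (p u).Prime ∧ p u ^ k u ≤ M u
  · rw [if_pos hc, if_pos hc, nm_sum hc.1 he]
    have h1 := le_lg_Final hc.1 hc.2
    have h2 : min (k u) (lg (M u) + 1) = k u := min_eq_left (h1.trans (Nat.le_succ _))
    rw [h2, if_pos hc.2]
    congr 1
    · refine Finset.sum_congr rfl fun j hj => ?_
      have hj' := Finset.mem_range.1 hj
      by_cases h3 : p u ^ j ∣ b u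
      · rw [if_pos h3, if_pos ⟨hc, hj', h3⟩]
      · rw [if_neg h3, if_neg fun h4 => h3 h4.2.2]
    · rw [if_pos hc]
  · rw [if_neg hc, if_neg hc]

private theorem nm_mul_Final {x y : ℕ} (hx : 0 < x) (hy : 0 < y) (hxy : Nat.Coprime x y)
    (a : Fin n → ℕ) (b : ℕ) : NM e (x * y) a b = NM e x a b * NM e y a b := by
  classical
  have h := crtn_mul (n := n) (fun m x => ∑ i, a i * x i ^ e i ≡ b [MOD m]) (fun m x => by
    have h1 : ∑ i, a i * (x i % m) ^ e i ≡ ∑ i, a i * x i ^ e i [MOD m] := by
      rw [← ZMod.natCast_eq_natCast_iff]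
      push_cast
      refine Finset.sum_congr rfl fun i _ => ?_
      rw [ZMod.natCast_mod]
    exact ⟨fun h => h1.symm.trans h, fun h => h1.trans h⟩)
    (fun a b x hab => (Nat.modEq_and_modEq_iff_modEq_mul hab).symm) hx hy hxy
  unfold NM
  convert h

theorem nm_split {m : ℕ} (hm : 0 < m) (a : Fin n → ℕ) (b : ℕ) :
    NM e m a b = ∏ p ∈ m.primeFactors, NM e (p ^ m.factorization p) a b := by
  revert hm
  refine Nat.recOnPosPrimePosCoprime (motive := fun m => 0 < m →
    NM e m a b = ∏ p ∈ m.primeFactors, NM e (p ^ m.factorization p) a b) ?_ ?_ ?_ ?_ m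
  · intro p k hp hk _
    rw [Nat.primeFactors_prime_pow hk.ne' hp, Finset.prod_singleton, hp.factorization_pow,
      Finsupp.single_eq_same]
  · intro h
    exact absurd h (lt_irrefl 0)
  · intro _
    rw [Nat.primeFactors_one, Finset.prod_empty, nm_one]
  · intro x y hx hy hxy ihx ihy _
    have hx0 : 0 < x := by omega
    have hy0 : 0 < y := by omega
    rw [nm_mul_Final hx0 hy0 hxy, hxy.primeFactors_mul,
      Finset.prod_union hxy.disjoint_primeFactors, ihx hx0, ihy hy0]
    congr 1
    · refine Finset.prod_congr rfl fun p hp => ?_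
      rw [Nat.factorization_eq_of_coprime_left hxy
        (Nat.mem_primeFactors_iff_mem_primeFactorsList.1 hp)]
    · refine Finset.prod_congr rfl fun p hp => ?_
      rw [Nat.factorization_eq_of_coprime_right hxy
        (Nat.mem_primeFactors_iff_mem_primeFactorsList.1 hp)]

private theorem nm_le_Final (m : ℕ) (a : Fin n → ℕ) (b : ℕ) : NM e m a b ≤ (m + 1) ^ n := by
  unfold NM
  refine (Finset.card_filter_le _ _).trans ?_
  rw [Fintype.card_piFinset, Finset.prod_const, Finset.card_univ, Fintype.card_fin,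
    Finset.card_range]
  exact Nat.pow_le_pow_left (Nat.le_succ m) n

private theorem nm_zero_Final (a : Fin n → ℕ) (b : ℕ) :
    NM e 0 a b = if b = 0 then (if n = 0 then 1 else 0) else 0 := by
  unfold NM
  rcases Nat.eq_zero_or_pos n with h | h
  · subst h
    by_cases hb : b = 0
    · subst hb
      rw [if_pos rfl, if_pos rfl]
      rfl
    · rw [if_neg hb, Finset.card_eq_zero, Finset.filter_eq_empty_iff]
      intro x _ h1
      apply hb
      rw [Finset.univ_eq_empty, Finset.sum_empty] at h1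
      exact (Nat.modEq_zero_iff.1 h1).symm
  · have h1 : Fintype.piFinset (fun _ : Fin n => range 0) = ∅ := by
      rw [Fintype.piFinset_eq_empty]
      exact ⟨⟨0, h⟩, Finset.range_zero⟩
    rw [h1, Finset.filter_empty, Finset.card_empty, if_neg h.ne', ite_self]

/-- the number of the solutions of a diagonal equation modulo an arbitrary number -/
theorem nm_def (he : ∀ i, 0 < e i) :
    DFun (n + 2) (fun v => NM e (v 0) (fun i => v i.succ.succ) (v 1)) := by
  classical
  have hpp := nm_pp (N := n + 2 + 1) he (p := fun w => w 0)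
    (k := fun w => if (w 0).Prime then (w 1).factorization (w 0) else 0)
    (b := fun w => w 2) (M := fun w => w 1)
    (a := fun i w => w i.succ.succ.succ) (DFun.proj 0) (val_def (DFun.proj 0) (DFun.proj 1))
    (DFun.proj 2) (DFun.proj 1) (fun i => DFun.proj _)
  have key : ∀ v : Fin (n + 2) → ℕ, 0 < v 0 → ∀ q ∈ (v 0).primeFactors,
      (if q.Prime ∧ q ^ (if q.Prime then (v 0).factorization q else 0) ≤ v 0 then
        NM e (q ^ (if q.Prime then (v 0).factorization q else 0)) (fun i => v i.succ.succ) (v 1)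
        else 0) = NM e (q ^ (v 0).factorization q) (fun i => v i.succ.succ) (v 1) := by
    intro v hv q hq
    have hqp := Nat.prime_of_mem_primeFactors hq
    rw [if_pos hqp, if_pos ⟨hqp, Nat.ordProj_le q hv.ne'⟩]
  have hprod := PtC.dfun_prodPF (n := n + 2) (m := fun v => v 0) (B := fun v => (v 0 + 1) ^ n)
    (g := fun q v => if q.Prime ∧ q ^ (if q.Prime then (v 0).factorization q else 0) ≤ v 0 then
        NM e (q ^ (if q.Prime then (v 0).factorization q else 0)) (fun i => v i.succ.succ) (v 1)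
        else 0) hpp (DFun.proj 0) (DFun.powConst ((DFun.proj 0).add (DFun.const 1)) n)
    (fun v => by
      rcases Nat.eq_zero_or_pos (v 0) with h0 | h0
      · rw [h0, Nat.primeFactors_zero, Finset.prod_empty, zero_add, one_pow]
      · rw [Finset.prod_congr rfl (key v h0), ← nm_split h0]
        exact nm_le_Final _ _ _)
  have hz : DFun (n + 2) (fun v => if v 1 = 0 then (if n = 0 then 1 else 0) else 0) :=
    DFun.ite (Delta0.eqFun (DFun.proj 1) (DFun.const 0)) (DFun.const _) (DFun.const 0)
  have h := DFun.ite (Delta0.eqFun (DFun.proj (n := n + 2) 0) (DFun.const 0)) hz hprod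
  refine dfun_congr h fun v => ?_
  by_cases h0 : v 0 = 0
  · rw [if_pos h0, h0, nm_zero_Final]
  · rw [if_neg h0, Finset.prod_congr rfl (key v (Nat.pos_of_ne_zero h0)),
      ← nm_split (Nat.pos_of_ne_zero h0)]

end Pool.Agent.DgP
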