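import Pool.Agent.DgP.Defs

/-!
# Package DgP-Lift: solutions with a unit coordinate

*`hensel`*: `p` prime, `p ∤ a`, `f ≥ 1`, `v` the exponent of `p` in `f`, `2 v + 1 ≤ k`. For every `z` the
number of the `u < p ^ (k + 1)` with `p ∤ u`, `a u ^ f ≡ z` modulo `p ^ (k + 1)` equals the number of the
`u < p ^ k` with `p ∤ u`, `a u ^ f ≡ z` modulo `p ^ k`. *Proof.* For `p ∤ u` and all `s`:
`a (u + p ^ (k - v) s) ^ f = a u ^ f + a f u ^ (f - 1) p ^ (k - v) s + p ^ (2 (k - v)) (…)`, where
`2 (k - v) ≥ k + 1` and `f = p ^ v f'` with `p ∤ f'`; so modulo `p ^ (k + 1)` it is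
`a u ^ f + p ^ k β s` with `β = a f' u ^ (f - 1)` prime to `p`. Hence modulo `p ^ k` the condition depends
only on `u` modulo `p ^ (k - v)`: the number modulo `p ^ k` is `p ^ v T`, `T` the number of the classes
`u < p ^ (k - v)` that satisfy the equation modulo `p ^ k`. Modulo `p ^ (k + 1)` the condition depends
only on `u` modulo `p ^ (k + 1 - v)` (the same computation with `k + 1`), and above each class
`u < p ^ (k - v)` counted by `T` there is exactly one `s < p` such that `u + p ^ (k - v) s` satisfies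
the equation modulo `p ^ (k + 1)` (`α + β s ≡ 0` modulo `p`), and above the others none. So the number
modulo `p ^ (k + 1)` is `p ^ v T` too. ∎ (Another way: both numbers are `0` or the number of the
`f`-torsion elements of the unit group; but the direct way is uniform in `p`.)

*`nu_lift`*: it is enough to take `j = 1` and any `c` with the hypothesis (then induct on `j`): the
number modulo `p ^ (c + 1)` is `p ^ (n - 1)` times the number modulo `p ^ c`. Partition the solutions
by the first index `i` with `p ∤ a i`, `p ∤ x i`. For fixed values modulo `p ^ (c + 1)` of the other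
coordinates the number of the `x i` is, by `hensel`, the number of the `x i` modulo `p ^ c` for the
values of the other coordinates modulo `p ^ c`, and each vector of the other `n - 1` coordinates
modulo `p ^ c` comes from `p ^ (n - 1)` vectors modulo `p ^ (c + 1)`. (`n = 0`: both sides are `0`.) ∎

Proved (helper91), with the unit groups: the kernel of the reduction consists of `f`-th powers.
-/

set_option autoImplicit false

namespace Pool.Agent.DgP

open Finset

variable {n : ℕ} {e : Fin n → ℕ} {p : ℕ}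

/-! ### Powers in finite commutative groups -/

private theorem root_Lift {G : Type*} [CommGroup G] [Finite G] (f : ℕ) (y : G) [Decidable
    (y ∈ (powMonoidHom f : G →* G).range)] :
    Nat.card {x : G // x ^ f = y} =
      if y ∈ (powMonoidHom f : G →* G).range then (powMonoidHom f : G →* G).range.index else 0 := by
  split_ifs with h
  · obtain ⟨x0, hx0⟩ := h
    have hx0' : x0 ^ f = y := hx0
    have e : {x : G // x ^ f = y} ≃ (powMonoidHom f : G →* G).ker :=
      { toFun := fun x => ⟨x0⁻¹ * x.1, by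
          rw [MonoidHom.mem_ker, powMonoidHom_apply, mul_pow, inv_pow, hx0', x.2,
            inv_mul_cancel]⟩
        invFun := fun x => ⟨x0 * x.1, by
          have h1 : x.1 ^ f = 1 := x.2
          rw [mul_pow, hx0', h1, mul_one]⟩
        left_inv := fun x => Subtype.ext (mul_inv_cancel_left _ _)
        right_inv := fun x => Subtype.ext (inv_mul_cancel_left _ _) }
    rw [Nat.card_congr e]
    have h1 := Subgroup.card_mul_index (powMonoidHom f : G →* G).ker
    have h2 := Subgroup.card_mul_index (powMonoidHom f : G →* G).range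
    rw [Subgroup.index_ker, ← h2, mul_comm] at h1
    exact Nat.eq_of_mul_eq_mul_left Nat.card_pos h1
  · have : IsEmpty {x : G // x ^ f = y} := ⟨fun x => h ⟨x.1, x.2⟩⟩
    exact Nat.card_of_isEmpty

private theorem trans_Lift {G H : Type*} [CommGroup G] [Finite G] [CommGroup H] [Finite H]
    (q : G →* H) (hq : Function.Surjective q) (f : ℕ)
    (hk : q.ker ≤ (powMonoidHom f : G →* G).range) (y : G) :
    Nat.card {x : G // x ^ f = y} = Nat.card {x : H // x ^ f = q y} := by
  classical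
  have hc : (powMonoidHom f : H →* H).range.comap q = (powMonoidHom f : G →* G).range := by
    ext g
    rw [Subgroup.mem_comap]
    constructor
    · rintro ⟨h, hh⟩
      obtain ⟨g', rfl⟩ := hq h
      have hh' : (q g') ^ f = q g := hh
      have h1 : g * (g' ^ f)⁻¹ ∈ q.ker := by
        rw [MonoidHom.mem_ker, map_mul, map_inv, map_pow, hh', mul_inv_cancel]
      have h2 := mul_mem (hk h1) (⟨g', rfl⟩ : g' ^ f ∈ (powMonoidHom f : G →* G).range)
      rwa [inv_mul_cancel_right] at h2
    · rintro ⟨g', rfl⟩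
      exact ⟨q g', (map_pow q g' f).symm⟩
  rw [root_Lift, root_Lift]
  have h1 : y ∈ (powMonoidHom f : G →* G).range ↔ q y ∈ (powMonoidHom f : H →* H).range := by
    rw [← hc, Subgroup.mem_comap]
  simp only [h1]
  rw [← hc, Subgroup.index_comap_of_surjective _ hq]

/-! ### Units modulo `p ^ k` -/

private theorem cnt_Lift (hp : p.Prime) {a f k : ℕ} (hk : 0 < k) {z : ℕ}
    (hca : a.Coprime (p ^ k)) (hcz : z.Coprime (p ^ k)) :
    #{u ∈ range (p ^ k) | ¬ p ∣ u ∧ a * u ^ f ≡ z [MOD p ^ k]} =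
      Nat.card {w : (ZMod (p ^ k))ˣ //
        w ^ f = (ZMod.unitOfCoprime a hca)⁻¹ * ZMod.unitOfCoprime z hcz} := by
  classical
  have : NeZero (p ^ k) := ⟨pow_ne_zero k hp.ne_zero⟩
  rw [Nat.card_eq_fintype_card, Fintype.card_subtype]
  symm
  have key : ∀ w : (ZMod (p ^ k))ˣ,
      w ^ f = (ZMod.unitOfCoprime a hca)⁻¹ * ZMod.unitOfCoprime z hcz ↔
        a * (w : ZMod (p ^ k)).val ^ f ≡ z [MOD p ^ k] := by
    intro w
    rw [eq_inv_mul_iff_mul_eq, Units.ext_iff, ← ZMod.natCast_eq_natCast_iff]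
    push_cast
    rw [ZMod.coe_unitOfCoprime, ZMod.coe_unitOfCoprime, ZMod.natCast_zmod_val]
  refine Finset.card_bij (fun w _ => (w : ZMod (p ^ k)).val) ?_ ?_ ?_
  · intro w hw
    rw [mem_filter] at hw
    rw [mem_filter, mem_range]
    refine ⟨ZMod.val_lt _, ?_, (key w).1 hw.2⟩
    intro h
    have h1 := ZMod.val_coe_unit_coprime w
    have h2 := Nat.Coprime.coprime_dvd_right (dvd_pow_self p hk.ne') h1
    have h3 := Nat.dvd_gcd h (dvd_refl p)
    rw [Nat.Coprime] at h2
    rw [h2] at h3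
    exact hp.one_lt.ne' (Nat.dvd_one.1 h3)
  · intro w _ w' _ h
    exact Units.ext (ZMod.val_injective _ h)
  · intro u hu
    rw [mem_filter, mem_range] at hu
    obtain ⟨h1, h2, h3⟩ := hu
    have hcu : u.Coprime (p ^ k) :=
      Nat.Coprime.pow_right k ((Nat.Prime.coprime_iff_not_dvd hp).2 h2).symm
    have h4 : ((ZMod.unitOfCoprime u hcu : (ZMod (p ^ k))ˣ) : ZMod (p ^ k)).val = u := by
      rw [ZMod.coe_unitOfCoprime, ZMod.val_natCast, Nat.mod_eq_of_lt h1]
    refine ⟨ZMod.unitOfCoprime u hcu, ?_, h4⟩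
    rw [mem_filter]
    refine ⟨mem_univ _, (key _).2 ?_⟩
    rw [h4]
    exact h3

private theorem bin_Lift (x f : ℕ) : ∃ q, (1 + x) ^ f = 1 + f * x + x ^ 2 * q := by
  induction f with
  | zero => exact ⟨0, by simp⟩
  | succ f ih =>
    obtain ⟨q, hq⟩ := ih
    refine ⟨f + q * (1 + x), ?_⟩
    rw [pow_succ, hq]
    ring

private theorem ker_Lift (hp : p.Prime) {f k : ℕ} (hf : 0 < f)
    (hk : 2 * f.factorization p + 1 ≤ k) :
    (ZMod.unitsMap (pow_dvd_pow p (Nat.le_succ k))).ker ≤
      (powMonoidHom f : (ZMod (p ^ (k + 1)))ˣ →* (ZMod (p ^ (k + 1)))ˣ).range := by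
  have : NeZero (p ^ (k + 1)) := ⟨pow_ne_zero (k + 1) hp.ne_zero⟩
  have : NeZero (p ^ k) := ⟨pow_ne_zero k hp.ne_zero⟩
  intro w hw
  rw [MonoidHom.mem_ker, Units.ext_iff] at hw
  have h1 : ((w : ZMod (p ^ (k + 1))).val : ZMod (p ^ k)) = 1 := by
    rw [Units.val_one, ZMod.unitsMap_val] at hw
    rw [← hw, ZMod.natCast_val]
  have hp1 : 1 < p ^ k := Nat.one_lt_pow (by omega) hp.one_lt
  have h2 : (w : ZMod (p ^ (k + 1))).val % p ^ k = 1 := by
    have h3 : ((w : ZMod (p ^ (k + 1))).val : ZMod (p ^ k)) = ((1 : ℕ) : ZMod (p ^ k)) := by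
      rw [h1, Nat.cast_one]
    rw [ZMod.natCast_eq_natCast_iff] at h3
    have h4 : (w : ZMod (p ^ (k + 1))).val % p ^ k = 1 % p ^ k := h3
    rwa [Nat.mod_eq_of_lt hp1] at h4
  obtain ⟨s, hs⟩ : ∃ s, (w : ZMod (p ^ (k + 1))).val = 1 + p ^ k * s :=
    ⟨_, by rw [← h2]; exact (Nat.mod_add_div _ _).symm⟩
  set v := f.factorization p with hv
  obtain ⟨f', hf'⟩ : p ^ v ∣ f := Nat.ordProj_dvd f p
  have hpf' : ¬ p ∣ f' := by
    have h3 := Nat.not_dvd_ordCompl hp hf.ne'
    have h4 : f / p ^ v = f' := by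
      conv_lhs => rw [hf']
      exact Nat.mul_div_cancel_left _ (pow_pos hp.pos v)
    rwa [← hv, h4] at h3
  obtain ⟨t, ht⟩ : ∃ t, f' * t ≡ s [MOD p] := by
    have hco : f'.Coprime p := ((Nat.Prime.coprime_iff_not_dvd hp).2 hpf').symm
    obtain ⟨i, hi⟩ := Nat.exists_mul_mod_eq_one_of_coprime hco hp.one_lt
    refine ⟨i * s, ?_⟩
    have h5 : f' * i ≡ 1 [MOD p] := by
      show f' * i % p = 1 % p
      rw [hi.2, Nat.mod_eq_of_lt hp.one_lt]
    rw [← mul_assoc]
    have h6 := h5.mul_right s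
    rwa [one_mul] at h6
  have hxc : (1 + p ^ (k - v) * t).Coprime (p ^ (k + 1)) := by
    refine Nat.Coprime.pow_right _ ?_
    have h5 : p ∣ p ^ (k - v) * t := (dvd_pow_self p (by omega)).mul_right t
    refine Nat.Coprime.symm ((Nat.Prime.coprime_iff_not_dvd hp).2 fun h6 => ?_)
    have h7 := (Nat.dvd_add_left h5).1 h6
    exact hp.one_lt.ne' (Nat.dvd_one.1 h7)
  refine ⟨ZMod.unitOfCoprime _ hxc, ?_⟩
  rw [powMonoidHom_apply, Units.ext_iff, Units.val_pow_eq_pow_val, ZMod.coe_unitOfCoprime]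
  have h8 : (w : ZMod (p ^ (k + 1))) = ((1 + p ^ k * s : ℕ) : ZMod (p ^ (k + 1))) := by
    rw [← hs, ZMod.natCast_zmod_val]
  rw [h8, ← Nat.cast_pow, ZMod.natCast_eq_natCast_iff]
  obtain ⟨r, hr⟩ := bin_Lift (p ^ (k - v) * t) f
  rw [hr]
  have h9 : f * (p ^ (k - v) * t) = p ^ k * (f' * t) := by
    conv_lhs => rw [hf']
    have h10 : p ^ k = p ^ v * p ^ (k - v) := by rw [← pow_add]; congr 1; omega
    rw [h10]
    ring
  have h11 : p ^ k * (f' * t) ≡ p ^ k * s [MOD p ^ (k + 1)] := by
    rw [pow_succ]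
    exact Nat.ModEq.mul_left' _ ht
  have h12 : (p ^ (k - v) * t) ^ 2 * r ≡ 0 [MOD p ^ (k + 1)] := by
    rw [Nat.modEq_zero_iff_dvd]
    have h13 : p ^ (k + 1) ∣ p ^ (2 * (k - v)) := pow_dvd_pow p (by omega)
    have h14 : (p ^ (k - v) * t) ^ 2 * r = p ^ (2 * (k - v)) * (t ^ 2 * r) := by
      rw [mul_pow, ← pow_mul, mul_comm (k - v) 2]
      ring
    rw [h14]
    exact h13.mul_right _
  rw [h9]
  have h15 := (Nat.ModEq.add_left 1 h11).add h12
  rwa [add_zero] at h15

/-! ### Sums over vectors -/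

private theorem avg_Lift (m : ℕ) (i : Fin n) (f : (Fin n → ℕ) → ℕ) :
    ∑ x ∈ Fintype.piFinset (fun _ : Fin n => range m), ∑ u ∈ range m,
      f (Function.update x i u) = m * ∑ x ∈ Fintype.piFinset (fun _ : Fin n => range m), f x := by
  have h1 : m * ∑ x ∈ Fintype.piFinset (fun _ : Fin n => range m), f x =
      ∑ x ∈ Fintype.piFinset (fun _ : Fin n => range m), ∑ _u ∈ range m, f x := by
    rw [mul_sum]
    exact sum_congr rfl fun x _ => by rw [sum_const, card_range, smul_eq_mul]
  rw [h1, ← sum_product', ← sum_product']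
  refine sum_nbij' (fun w => (Function.update w.1 i w.2, w.1 i))
    (fun w => (Function.update w.1 i w.2, w.1 i)) ?_ ?_ ?_ ?_ ?_
  · rintro ⟨x, u⟩ h
    rw [mem_product, Fintype.mem_piFinset] at h ⊢
    refine ⟨fun j => ?_, h.1 i⟩
    by_cases hj : j = i
    · subst hj
      simp only [Function.update_self]
      exact h.2
    · simp only [Function.update_of_ne hj]
      exact h.1 j
  · rintro ⟨x, u⟩ h
    rw [mem_product, Fintype.mem_piFinset] at h ⊢
    refine ⟨fun j => ?_, h.1 i⟩
    by_cases hj : j = i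
    · subst hj
      simp only [Function.update_self]
      exact h.2
    · simp only [Function.update_of_ne hj]
      exact h.1 j
  · rintro ⟨x, u⟩ _
    simp
  · rintro ⟨x, u⟩ _
    simp
  · rintro ⟨x, u⟩ _
    rfl

private theorem per_Lift (M q : ℕ) (hM : 0 < M) (f : (Fin n → ℕ) → ℕ)
    (hf : ∀ x, f x = f fun j => x j % M) :
    ∑ x ∈ Fintype.piFinset (fun _ : Fin n => range (M * q)), f x =
      q ^ n * ∑ x ∈ Fintype.piFinset (fun _ : Fin n => range M), f x := by
  have h1 : q ^ n * ∑ x ∈ Fintype.piFinset (fun _ : Fin n => range M), f x =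
      ∑ x ∈ Fintype.piFinset (fun _ : Fin n => range M),
        ∑ _t ∈ Fintype.piFinset (fun _ : Fin n => range q), f x := by
    rw [mul_sum]
    refine sum_congr rfl fun x _ => ?_
    rw [sum_const, Fintype.card_piFinset, smul_eq_mul]
    simp
  rw [h1, ← sum_product']
  refine sum_nbij' (fun x => (fun j => x j % M, fun j => x j / M))
    (fun w => fun j => w.1 j + M * w.2 j) ?_ ?_ ?_ ?_ ?_
  · intro x hx
    rw [Fintype.mem_piFinset] at hx
    rw [mem_product, Fintype.mem_piFinset, Fintype.mem_piFinset]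
    refine ⟨fun j => mem_range.2 (Nat.mod_lt _ hM), fun j => mem_range.2 ?_⟩
    exact Nat.div_lt_of_lt_mul (mem_range.1 (hx j))
  · rintro ⟨y, t⟩ h
    rw [mem_product, Fintype.mem_piFinset, Fintype.mem_piFinset] at h
    rw [Fintype.mem_piFinset]
    intro j
    have h2 := mem_range.1 (h.1 j)
    have h3 := mem_range.1 (h.2 j)
    rw [mem_range]
    show y j + M * t j < M * q
    have h4 : M * (t j + 1) ≤ M * q := Nat.mul_le_mul_left M h3
    rw [mul_add, mul_one] at h4
    have h5 : y j < M := h2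
    omega
  · intro x _
    funext j
    exact Nat.mod_add_div _ _
  · rintro ⟨y, t⟩ h
    rw [mem_product, Fintype.mem_piFinset, Fintype.mem_piFinset] at h
    refine Prod.ext (funext fun j => ?_) (funext fun j => ?_)
    · show (y j + M * t j) % M = y j
      rw [Nat.add_mul_mod_self_left]
      exact Nat.mod_eq_of_lt (mem_range.1 (h.1 j))
    · show (y j + M * t j) / M = t j
      rw [Nat.add_mul_div_left _ _ hM, Nat.div_eq_of_lt (mem_range.1 (h.1 j)), zero_add]
  · intro x _
    exact hf x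

private theorem first_Lift (Q : Fin n → Prop) [DecidablePred Q] :
    (∑ i : Fin n, if Q i ∧ ∀ j < i, ¬ Q j then 1 else 0) = if ∃ i, Q i then 1 else 0 := by
  by_cases h : ∃ i, Q i
  · rw [if_pos h]
    have hne : (univ.filter Q).Nonempty := by
      obtain ⟨i, hi⟩ := h
      exact ⟨i, mem_filter.2 ⟨mem_univ _, hi⟩⟩
    have h1 := (mem_filter.1 ((univ.filter Q).min'_mem hne)).2
    have h2 : ∀ j, Q j → (univ.filter Q).min' hne ≤ j := fun j hj =>
      (univ.filter Q).min'_le j (mem_filter.2 ⟨mem_univ _, hj⟩)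
    rw [sum_eq_single ((univ.filter Q).min' hne)]
    · rw [if_pos ⟨h1, fun j hj hQ => absurd (h2 j hQ) (not_le.2 hj)⟩]
    · intro i _ hi
      rw [if_neg]
      rintro ⟨h3, h4⟩
      have h5 := h2 i h3
      exact h4 _ (lt_of_le_of_ne h5 (Ne.symm hi)) h1
    · intro h3
      exact absurd (mem_univ _) h3
  · rw [if_neg h]
    refine sum_eq_zero fun i _ => ?_
    rw [if_neg]
    rintro ⟨h1, -⟩
    exact h ⟨i, h1⟩

theorem hensel (hp : p.Prime) {a f k : ℕ} (ha : ¬ p ∣ a) (hf : 0 < f)
    (hk : 2 * f.factorization p + 1 ≤ k) (z : ℕ) :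
    #{u ∈ range (p ^ (k + 1)) | ¬ p ∣ u ∧ a * u ^ f ≡ z [MOD p ^ (k + 1)]} =
      #{u ∈ range (p ^ k) | ¬ p ∣ u ∧ a * u ^ f ≡ z [MOD p ^ k]} := by
  classical
  have hk0 : 0 < k := by omega
  have hcop : ∀ {b m : ℕ}, ¬ p ∣ b → b.Coprime (p ^ m) := fun {b m} hb =>
    Nat.Coprime.pow_right m ((Nat.Prime.coprime_iff_not_dvd hp).2 hb).symm
  by_cases hz : p ∣ z
  · have hemp : ∀ m, 0 < m →
        #{u ∈ range (p ^ m) | ¬ p ∣ u ∧ a * u ^ f ≡ z [MOD p ^ m]} = 0 := by
      intro m hm
      rw [card_eq_zero, filter_eq_empty_iff]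
      rintro u _ ⟨h1, h2⟩
      have h3 : a * u ^ f ≡ z [MOD p] := h2.of_dvd (dvd_pow_self p hm.ne')
      have h4 : p ∣ a * u ^ f := (h3.dvd_iff (dvd_refl p)).2 hz
      rcases hp.dvd_mul.1 h4 with h5 | h5
      · exact ha h5
      · exact h1 (hp.dvd_of_dvd_pow h5)
    rw [hemp _ (Nat.succ_pos k), hemp _ hk0]
  · have : NeZero (p ^ (k + 1)) := ⟨pow_ne_zero (k + 1) hp.ne_zero⟩
    have : NeZero (p ^ k) := ⟨pow_ne_zero k hp.ne_zero⟩
    rw [cnt_Lift hp (Nat.succ_pos k) (hcop ha) (hcop hz), cnt_Lift hp hk0 (hcop ha) (hcop hz),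
      trans_Lift (ZMod.unitsMap (pow_dvd_pow p (Nat.le_succ k)))
        (ZMod.unitsMap_surjective _) f (ker_Lift hp hf hk)]
    have h1 : ZMod.unitsMap (pow_dvd_pow p (Nat.le_succ k))
        ((ZMod.unitOfCoprime a (hcop (m := k + 1) ha))⁻¹ *
          ZMod.unitOfCoprime z (hcop (m := k + 1) hz)) =
        (ZMod.unitOfCoprime a (hcop (m := k) ha))⁻¹ * ZMod.unitOfCoprime z (hcop (m := k) hz) := by
      have h2 : ∀ {b : ℕ} (h3 : b.Coprime (p ^ (k + 1))) (h4 : b.Coprime (p ^ k)),
          ZMod.unitsMap (pow_dvd_pow p (Nat.le_succ k)) (ZMod.unitOfCoprime b h3) =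
            ZMod.unitOfCoprime b h4 := by
        intro b h3 h4
        apply Units.ext
        rw [ZMod.unitsMap_val, ZMod.coe_unitOfCoprime, ZMod.coe_unitOfCoprime]
        exact ZMod.cast_natCast (pow_dvd_pow p (Nat.le_succ k)) b
      rw [map_mul, map_inv, h2, h2]
    rw [h1]

theorem nu_lift (hp : p.Prime) (he : ∀ i, 0 < e i) {c : ℕ}
    (hc : ∀ i, 2 * (e i).factorization p + 1 ≤ c) (j : ℕ) (a : Fin n → ℕ) (b : ℕ) :
    NU e p (c + j) a b = p ^ ((n - 1) * j) * NU e p c a b := by
  classical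
  have step : ∀ c : ℕ, (∀ i, 2 * (e i).factorization p + 1 ≤ c) →
      NU e p (c + 1) a b = p ^ (n - 1) * NU e p c a b := by
    intro c hc
    let Q : Fin n → (Fin n → ℕ) → Prop := fun i x => ¬ p ∣ a i ∧ ¬ p ∣ x i
    let E : ℕ → (Fin n → ℕ) → Prop := fun s x => ∑ i, a i * x i ^ e i ≡ b [MOD p ^ s]
    let Sn : ℕ → Fin n → ℕ := fun s i =>
      ∑ x ∈ Fintype.piFinset (fun _ : Fin n => range (p ^ s)),
        if E s x ∧ Q i x ∧ ∀ j < i, ¬ Q j x then 1 else 0
    have hNU : ∀ s, NU e p s a b = ∑ i, Sn s i := by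
      intro s
      unfold NU
      rw [card_filter, sum_comm]
      refine sum_congr rfl fun x _ => ?_
      have h1 := first_Lift fun i => Q i x
      by_cases hE : E s x
      · have h2 : ∀ i : Fin n, (if E s x ∧ Q i x ∧ ∀ j < i, ¬ Q j x then 1 else 0) =
            if Q i x ∧ ∀ j < i, ¬ Q j x then 1 else 0 := fun i => by simp [hE]
        rw [sum_congr rfl fun i _ => h2 i, h1]
        have h3 : (∑ i, a i * x i ^ e i ≡ b [MOD p ^ s] ∧ ∃ i, ¬ p ∣ a i ∧ ¬ p ∣ x i) ↔
            ∃ i, Q i x := ⟨fun h => h.2, fun h => ⟨hE, h⟩⟩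
        simp only [h3]
      · rw [if_neg fun h => hE h.1]
        refine (sum_eq_zero fun i _ => ?_).symm
        rw [if_neg fun h => hE h.1]
    rw [hNU, hNU, mul_sum]
    refine sum_congr rfl fun i _ => ?_
    have hp0 : 0 < p := hp.pos
    have hn : 0 < n := i.pos
    have hc0 : 0 < c := by have := hc i; omega
    -- the number of the values of the coordinate `i`
    let P : (Fin n → ℕ) → Prop := fun x => ¬ p ∣ a i ∧ ∀ j < i, ¬ Q j x
    let H : ℕ → (Fin n → ℕ) → ℕ := fun s x =>
      if P x then #{u ∈ range (p ^ s) | ¬ p ∣ u ∧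
        a i * u ^ e i + ∑ j ∈ univ.erase i, a j * x j ^ e j ≡ b [MOD p ^ s]} else 0
    have hH : ∀ s, p ^ s * Sn s i =
        ∑ x ∈ Fintype.piFinset (fun _ : Fin n => range (p ^ s)), H s x := by
      intro s
      rw [← avg_Lift (p ^ s) i]
      refine sum_congr rfl fun x _ => ?_
      have hEu : ∀ u, E s (Function.update x i u) ↔
          a i * u ^ e i + ∑ j ∈ univ.erase i, a j * x j ^ e j ≡ b [MOD p ^ s] := by
        intro u
        show ∑ j, a j * (Function.update x i u) j ^ e j ≡ b [MOD p ^ s] ↔ _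
        rw [← add_sum_erase univ _ (mem_univ i), Function.update_self]
        have h1 : ∑ j ∈ univ.erase i, a j * (Function.update x i u) j ^ e j =
            ∑ j ∈ univ.erase i, a j * x j ^ e j :=
          sum_congr rfl fun j hj => by rw [Function.update_of_ne (mem_erase.1 hj).1]
        rw [h1]
      have hQi : ∀ u, Q i (Function.update x i u) ↔ ¬ p ∣ a i ∧ ¬ p ∣ u := by
        intro u
        show ¬ p ∣ a i ∧ ¬ p ∣ (Function.update x i u) i ↔ _
        rw [Function.update_self]
      have hQj : ∀ u, (∀ j < i, ¬ Q j (Function.update x i u)) ↔ ∀ j < i, ¬ Q j x := by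
        intro u
        refine forall_congr' fun j => forall_congr' fun hj => ?_
        show ¬ (¬ p ∣ a j ∧ ¬ p ∣ (Function.update x i u) j) ↔ ¬ (¬ p ∣ a j ∧ ¬ p ∣ x j)
        rw [Function.update_of_ne hj.ne]
      show _ = if P x then _ else 0
      by_cases hP : P x
      · rw [if_pos hP, card_filter]
        refine sum_congr rfl fun u _ => ?_
        have h1 : (E s (Function.update x i u) ∧ Q i (Function.update x i u) ∧
            ∀ j < i, ¬ Q j (Function.update x i u)) ↔ (¬ p ∣ u ∧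
            a i * u ^ e i + ∑ j ∈ univ.erase i, a j * x j ^ e j ≡ b [MOD p ^ s]) := by
          rw [hEu, hQi, hQj]
          exact ⟨fun h => ⟨h.2.1.2, h.1⟩, fun h => ⟨h.2, ⟨hP.1, h.1⟩, hP.2⟩⟩
        simp only [h1]
      · rw [if_neg hP]
        refine sum_eq_zero fun u _ => ?_
        rw [if_neg]
        rintro ⟨-, h2, h3⟩
        rw [hQi] at h2
        rw [hQj] at h3
        exact hP ⟨h2.1, h3⟩
    -- Hensel
    have hlift : ∀ x, H (c + 1) x = H c x := by
      intro x
      show (if P x then _ else 0) = if P x then _ else 0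
      by_cases hP : P x
      · rw [if_pos hP, if_pos hP]
        have h1 : ∀ s u : ℕ, s ≤ c + 1 →
            (a i * u ^ e i + ∑ j ∈ univ.erase i, a j * x j ^ e j ≡ b [MOD p ^ s] ↔
            a i * u ^ e i ≡ b + (p ^ (c + 1) - 1) * ∑ j ∈ univ.erase i, a j * x j ^ e j
              [MOD p ^ s]) := by
          intro s u hs
          set S := ∑ j ∈ univ.erase i, a j * x j ^ e j
          have h2 : b + (p ^ (c + 1) - 1) * S + S = b + p ^ (c + 1) * S := by
            have h3 : 1 ≤ p ^ (c + 1) := Nat.one_le_pow _ _ hp0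
            obtain ⟨t, ht⟩ := Nat.exists_eq_add_of_le h3
            rw [ht, Nat.add_sub_cancel_left]
            ring
          have h3 : b + p ^ (c + 1) * S ≡ b [MOD p ^ s] := by
            have h4 : p ^ (c + 1) * S ≡ 0 [MOD p ^ s] :=
              (Nat.modEq_zero_iff_dvd).2 ((pow_dvd_pow p hs).mul_right S)
            have h5 := Nat.ModEq.add_left b h4
            rwa [add_zero] at h5
          constructor
          · intro h4
            refine Nat.ModEq.add_right_cancel' S ?_
            rw [h2]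
            exact h4.trans h3.symm
          · intro h4
            have h5 := h4.add_right S
            rw [h2] at h5
            exact h5.trans h3
        have h6 := hensel hp hP.1 (he i) (hc i)
          (b + (p ^ (c + 1) - 1) * ∑ j ∈ univ.erase i, a j * x j ^ e j)
        have h7 : ∀ s, s ≤ c + 1 → #{u ∈ range (p ^ s) | ¬ p ∣ u ∧
            a i * u ^ e i + ∑ j ∈ univ.erase i, a j * x j ^ e j ≡ b [MOD p ^ s]} =
            #{u ∈ range (p ^ s) | ¬ p ∣ u ∧ a i * u ^ e i ≡
              b + (p ^ (c + 1) - 1) * ∑ j ∈ univ.erase i, a j * x j ^ e j [MOD p ^ s]} := by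
          intro s hs
          congr 1
          refine filter_congr fun u _ => ?_
          rw [h1 s u hs]
        rw [h7 _ le_rfl, h7 _ (Nat.le_succ c), h6]
      · rw [if_neg hP, if_neg hP]
    -- periodicity
    have hper : ∀ x, H c x = H c fun j => x j % p ^ c := by
      intro x
      have h1 : ∀ j, p ∣ x j % p ^ c ↔ p ∣ x j := by
        intro j
        exact (Nat.dvd_mod_iff (dvd_pow_self p hc0.ne'))
      have hPP : P (fun j => x j % p ^ c) ↔ P x := by
        show (¬ p ∣ a i ∧ ∀ j < i, ¬ (¬ p ∣ a j ∧ ¬ p ∣ x j % p ^ c)) ↔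
          (¬ p ∣ a i ∧ ∀ j < i, ¬ (¬ p ∣ a j ∧ ¬ p ∣ x j))
        simp only [h1]
      have h2 : ∑ j ∈ univ.erase i, a j * (x j % p ^ c) ^ e j ≡
          ∑ j ∈ univ.erase i, a j * x j ^ e j [MOD p ^ c] := by
        refine Nat.ModEq.sum fun j _ => ?_
        exact Nat.ModEq.mul_left _ ((Nat.mod_modEq _ _).pow _)
      show (if P x then _ else 0) = if P (fun j => x j % p ^ c) then _ else 0
      by_cases hP : P x
      · rw [if_pos hP, if_pos (hPP.2 hP)]
        congr 1
        refine filter_congr fun u _ => ?_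
        have h3 := Nat.ModEq.add_left (a i * u ^ e i) h2
        constructor
        · rintro ⟨h4, h5⟩
          exact ⟨h4, h3.trans h5⟩
        · rintro ⟨h4, h5⟩
          exact ⟨h4, h3.symm.trans h5⟩
      · rw [if_neg hP, if_neg fun h => hP (hPP.1 h)]
    have h1 := hH (c + 1)
    rw [sum_congr rfl fun x _ => hlift x] at h1
    have h2 := per_Lift (n := n) (p ^ c) p (pow_pos hp0 c) (H c) hper
    rw [← pow_succ] at h2
    rw [h2, ← hH c] at h1
    have h3 : p ^ (c + 1) * Sn (c + 1) i = p ^ (c + 1) * (p ^ (n - 1) * Sn c i) := by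
      rw [h1]
      obtain ⟨m, hm⟩ : ∃ m, n = m + 1 := ⟨n - 1, by omega⟩
      have h4 : p ^ n = p ^ (n - 1) * p := by
        rw [← pow_succ]
        congr 1
        omega
      rw [h4]
      ring
    exact Nat.eq_of_mul_eq_mul_left (pow_pos hp0 (c + 1)) h3
  induction j with
  | zero => simp
  | succ j ih =>
    rw [← add_assoc, step (c + j) fun i => (hc i).trans (Nat.le_add_right c j), ih, mul_add,
      mul_one, pow_add]
    ring

end Pool.Agent.DgP
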