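import Pool.Agent.DgP.SumF
import Pool.Agent.DgP.StDef
import Pool.Agent.DgE.PrimeDef

/-!
# Package DgP-NuDef: solutions with a unit coordinate are definable

*`nu_const`*: for constants `p₀`, `k₀` the number `NU e p₀ k₀ a b` depends only on the residues of
`a i`, `b` modulo `p₀ ^ k₀` (for `k₀ ≥ 1`; and `p₀ ∣ a i` depends on them too; for `k₀ = 0` the range
is `{0}` and the number is `0`, as `p₀ ∣ 0`): a finite case distinction over the residue vectors
(`Delta0.exOf`-like, or a finite sum over the vectors of `DFun.ite` of constants; `p₀ = 0` gives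
constants too, or assume nothing and treat `p₀ ^ k₀ = 0` apart: then the range is empty for `n ≥ 1`). ∎

*`nu_def`*: let `C = 2 * ∑ i, e i + 1`, so `2 (e i).factorization p + 1 ≤ C`
(`Nat.factorization_lt`). If the prime `p` divides no `e i`: `nu_prime`: `diag_prime` (DgE/PrimeDef)
for `NM e p a b`, `nd` a sum of `n` indicators, the power `p ^ ((n - 1) (k - 1))` is at most
`(M + 1) ^ n` if `p ^ k ≤ M` (`powB_def`). Otherwise `p` is one of the finitely many primes
`p₀ ≤ ∑ e i` dividing some `e i`: for `k < C` (finitely many `k`) `nu_const`; for `k ≥ C`: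
`nu_lift` with `c = C`, `j = k - C`, and `nu_const` for `NU e p₀ C a b`. (The value is at most
`(p ^ k) ^ n ≤ M ^ n`.) ∎

Difficulty: 1.8 h.
-/

set_option autoImplicit false

namespace Pool.Agent.DgP

open Finset Pool.Agent.Grz Pool.Agent.GAvg Pool.Agent.PTr Pool.Agent.MTr Pool.Agent.LPC
  Pool.Agent.ECD Pool.Agent.DgE

variable {n : ℕ} {e : Fin n → ℕ} {N : ℕ}

private theorem congr_NuDef {f g : (Fin N → ℕ) → ℕ} (h : DFun N g) (e : ∀ v, f v = g v) :
    DFun N f := by
  rw [show f = g from funext e]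
  exact h

theorem nu_const (p₀ k₀ : ℕ) {b : (Fin N → ℕ) → ℕ} {a : Fin n → (Fin N → ℕ) → ℕ}
    (hb : DFun N b) (ha : ∀ i, DFun N (a i)) :
    DFun N (fun u => NU e p₀ k₀ (fun i => a i u) (b u)) := by
  classical
  have hD : ∀ x : Fin n → ℕ, Delta0 N (fun u =>
      (∑ i, a i u * x i ^ e i ≡ b u [MOD p₀ ^ k₀]) ∧
        ∃ i ∈ (Finset.univ : Finset (Fin n)), ¬ p₀ ∣ a i u ∧ ¬ p₀ ∣ x i) := by
    intro x
    refine Delta0.and ?_ ?_
    · exact Delta0.eqFun (DFun.modAny (DFun.finSum Finset.univ fun i =>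
        (ha i).mul (DFun.const (x i ^ e i))) (DFun.const (p₀ ^ k₀)))
        (DFun.modAny hb (DFun.const (p₀ ^ k₀)))
    · exact Delta0.finEx Finset.univ fun i => (delta_dvd (DFun.const p₀) (ha i)).not.and
        (delta_dvd (DFun.const p₀) (DFun.const (x i))).not
  have h := DFun.finSum (Fintype.piFinset (fun _ : Fin n => range (p₀ ^ k₀)))
    (fun x => DFun.ite (hD x) (DFun.const 1) (DFun.const 0))
  refine congr_NuDef h fun u => ?_
  unfold NU
  rw [Finset.card_filter]
  refine Finset.sum_congr rfl fun x _ => ?_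
  by_cases hc : (∑ i, a i u * x i ^ e i ≡ b u [MOD p₀ ^ k₀]) ∧ ∃ i, ¬ p₀ ∣ a i u ∧ ¬ p₀ ∣ x i
  · rw [if_pos hc, if_pos]
    obtain ⟨h1, j, h2⟩ := hc
    exact ⟨h1, j, Finset.mem_univ j, h2⟩
  · rw [if_neg hc, if_neg]
    rintro ⟨h1, j, -, h2⟩
    exact hc ⟨h1, j, h2⟩

open scoped Classical in
private theorem nm_NuDef (he : ∀ i, 0 < e i) {p b : (Fin N → ℕ) → ℕ}
    {a : Fin n → (Fin N → ℕ) → ℕ} (hp : DFun N p) (hb : DFun N b) (ha : ∀ i, DFun N (a i)) :
    DFun N (fun u => if (p u).Prime then NM e (p u) (fun i => a i u) (b u) else 0) := by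
  have h := (diag_prime he).comp (n := N) (h := Fin.cons p (Fin.cons b fun i => a i)) (by
    intro i
    refine Fin.cases ?_ (fun i => ?_) i
    · exact hp
    refine Fin.cases ?_ (fun i => ?_) i
    · exact hb
    · exact ha i)
  refine congr_NuDef h fun u => ?_
  by_cases hu : (p u).Prime
  · rw [if_pos hu]
    exact (if_pos hu).symm
  · rw [if_neg hu]
    exact (if_neg hu).symm

open scoped Classical in
private theorem nd_NuDef {p : (Fin N → ℕ) → ℕ} {a : Fin n → (Fin N → ℕ) → ℕ} (hp : DFun N p)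
    (ha : ∀ i, DFun N (a i)) : DFun N (fun u => nd (p u) (fun i => a i u)) := by
  have h := DFun.finSum (Finset.univ : Finset (Fin n))
    (fun i => DFun.ite (delta_dvd hp (ha i)) (DFun.const 1) (DFun.const 0))
  refine congr_NuDef h fun u => ?_
  unfold nd
  rw [Finset.card_filter]

/-- a power of `p` with a bounded exponent is at most a power of `M + 1` -/
private theorem pow_le_NuDef {p k M c j : ℕ} (hp : 0 < p) (h : p ^ k ≤ M) (hj : j ≤ k) :
    p ^ (c * j) ≤ (M + 1) ^ c := by
  rw [mul_comm, pow_mul]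
  refine Nat.pow_le_pow_left ?_ c
  exact (Nat.pow_le_pow_right hp hj).trans (h.trans (Nat.le_succ M))

open scoped Classical in
theorem nu_def (he : ∀ i, 0 < e i) {p k b M : (Fin N → ℕ) → ℕ} {a : Fin n → (Fin N → ℕ) → ℕ}
    (hp : DFun N p) (hk : DFun N k) (hb : DFun N b) (hM : DFun N M) (ha : ∀ i, DFun N (a i)) :
    DFun N (fun u => if (p u).Prime ∧ 0 < k u ∧ p u ^ k u ≤ M u then
      NU e (p u) (k u) (fun i => a i u) (b u) else 0) := by
  obtain ⟨C, hC⟩ : ∃ C, C = 2 * ∑ i, e i + 1 := ⟨_, rfl⟩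
  have hcond : Delta0 N (fun u => (p u).Prime ∧ 0 < k u ∧ p u ^ k u ≤ M u) :=
    (delta_prime hp).and ((Delta0.ltFun (DFun.const 0) hk).and (powB_def hp hk hM).2)
  have hgood : Delta0 N (fun u => ∀ i, ¬ p u ∣ e i) :=
    Delta0.allOf fun i => (delta_dvd hp (DFun.const (e i))).not
  have hB : DFun N (fun u => (M u + 1) ^ n) := DFun.powConst (hM.add (DFun.const 1)) n
  have hP1 := (powB_def hp (((DFun.const (n - 1)).mul (hk.sub (DFun.const 1)))) hB).1
  have hP2 := (powB_def hp (nd_NuDef hp ha) hB).1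
  have hP3 := (powB_def hp (((DFun.const (n - 1)).mul (hk.sub (DFun.const C)))) hB).1
  have hG := hP1.mul ((nm_NuDef he hp hb ha).sub
    (DFun.ite (delta_dvd hp hb) hP2 (DFun.const 0)))
  have hH : ∀ p₀, DFun N (fun u => if p u = p₀ then
      (if k u < C then ∑ k₀ ∈ range C,
        (if k u = k₀ then NU e p₀ k₀ (fun i => a i u) (b u) else 0)
      else (if p u ^ ((n - 1) * (k u - C)) ≤ (M u + 1) ^ n then
        p u ^ ((n - 1) * (k u - C)) else 0) * NU e p₀ C (fun i => a i u) (b u)) else 0) := by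
    intro p₀
    refine DFun.ite (Delta0.eqFun hp (DFun.const p₀)) (DFun.ite (Delta0.ltFun hk (DFun.const C))
      (DFun.finSum (range C) fun k₀ => DFun.ite (Delta0.eqFun hk (DFun.const k₀))
        (nu_const p₀ k₀ hb ha) (DFun.const 0)) ?_) (DFun.const 0)
    exact hP3.mul (nu_const p₀ C hb ha)
  have hF := DFun.ite hcond (DFun.ite hgood hG (DFun.finSum (range (∑ i, e i + 1)) hH))
    (DFun.const 0)
  refine congr_NuDef hF fun u => ?_
  by_cases hc : (p u).Prime ∧ 0 < k u ∧ p u ^ k u ≤ M u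
  · rw [if_pos hc, if_pos hc]
    obtain ⟨hpp, hk0, hpk⟩ := hc
    have hp0 : 0 < p u := hpp.pos
    by_cases hg : ∀ i, ¬ p u ∣ e i
    · rw [if_pos hg, nu_prime hpp he hg hk0, if_pos hpp]
      have h1 : p u ^ ((n - 1) * (k u - 1)) ≤ (M u + 1) ^ n := by
        refine (pow_le_NuDef hp0 hpk (Nat.sub_le _ _)).trans ?_
        exact Nat.pow_le_pow_right (Nat.succ_pos _) (Nat.sub_le _ _)
      have h2 : p u ^ nd (p u) (fun i => a i u) ≤ (M u + 1) ^ n := by
        have h3 : nd (p u) (fun i => a i u) ≤ n := by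
          unfold nd
          exact (Finset.card_filter_le _ _).trans (by rw [Finset.card_univ, Fintype.card_fin])
        have h4 : p u ≤ M u + 1 := by
          calc p u = p u ^ 1 := (pow_one _).symm
            _ ≤ p u ^ k u := Nat.pow_le_pow_right hp0 hk0
            _ ≤ M u + 1 := hpk.trans (Nat.le_succ _)
        exact (Nat.pow_le_pow_left h4 _).trans (Nat.pow_le_pow_right (Nat.succ_pos _) h3)
      rw [if_pos h1, if_pos h2]
    · rw [if_neg hg]
      push Not at hg
      obtain ⟨i, hi⟩ := hg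
      have h1 : p u ∈ range (∑ i, e i + 1) := by
        rw [Finset.mem_range]
        have h2 := Nat.le_of_dvd (he i) hi
        have h3 : e i ≤ ∑ i, e i := Finset.single_le_sum (fun _ _ => Nat.zero_le _)
          (Finset.mem_univ i)
        omega
      rw [Finset.sum_ite_eq, if_pos h1]
      by_cases hkC : k u < C
      · rw [if_pos hkC, Finset.sum_ite_eq, if_pos (Finset.mem_range.2 hkC)]
      · rw [if_neg hkC]
        have h2 : ∀ i, 2 * (e i).factorization (p u) + 1 ≤ C := by
          intro i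
          have h3 := Nat.factorization_lt (p u) (he i).ne'
          have h4 : e i ≤ ∑ i, e i := Finset.single_le_sum (fun _ _ => Nat.zero_le _)
            (Finset.mem_univ i)
          omega
        have h3 := nu_lift hpp he h2 (k u - C) (fun i => a i u) (b u)
        rw [show C + (k u - C) = k u by omega] at h3
        rw [h3, if_pos]
        refine (pow_le_NuDef hp0 hpk (Nat.sub_le _ _)).trans ?_
        exact Nat.pow_le_pow_right (Nat.succ_pos _) (Nat.sub_le _ _)
  · rw [if_neg hc, if_neg hc]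

end Pool.Agent.DgP
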