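import Pool.Agent.DgP.Defs

/-!
# Package DgP-Rec: from `p ^ (k + 1)` to `p ^ k`

All `e i > 0`, `p` prime. *`nm_one`*: one vector, and everything is congruent modulo `1`.

*`rec_not`* (`p ∤ b`): a solution modulo `p ^ (k + 1)` with `p ∣ x i` whenever `p ∤ a i` would give
`b ≡ 0` modulo `p` (`e i > 0`). So all solutions are counted by `NU`. ∎

*`rec_dvd`* (`p ∣ b`): the solutions not counted by `NU` are those with `p ∣ x i` for all `i` with
`p ∤ a i`. For such `i` write `x i = p y i`, `y i < p ^ k`; for the other `i` (`p ∣ a i`) let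
`y i = x i % p ^ k`, each `y i` comes from `p` numbers `x i < p ^ (k + 1)`. All terms are divisible by
`p`: `a i x i ^ e i = p (stp e p a i) y i ^ e i` in the first case, and
`a i x i ^ e i = p (a i / p) x i ^ e i ≡ p (stp e p a i) y i ^ e i` modulo `p ^ (k + 1)` in the second.
So the equation modulo `p ^ (k + 1)` is equivalent to `∑ (stp e p a) i y i ^ e i ≡ b / p` modulo
`p ^ k` (`Nat.ModEq.mul_left_cancel'`-like), and the number is `p ^ (nd p a)` times the number of the
`y`: the map `x ↦ y` is onto with all fibres of size `p ^ (nd p a)` (`Finset.card_eq_sum_card_fiberwise`,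
or a bijection `x ↔ (y, (x i / p ^ k)_(i, p ∣ a i))`, for instance `x i = y i + p ^ k z i` for
`p ∣ a i`, `x i = p y i` else, `z : {i // p ∣ a i} → range p`). ∎

Difficulty: 1.5 h.
-/

set_option autoImplicit false

namespace Pool.Agent.DgP

open Finset

variable {n : ℕ} {e : Fin n → ℕ} {p : ℕ}

theorem nm_one (a : Fin n → ℕ) (b : ℕ) : NM e 1 a b = 1 := by
  unfold NM
  rw [Finset.filter_true_of_mem fun x _ => Nat.modEq_one, Fintype.card_piFinset]
  simp

private theorem split_Rec (k : ℕ) (a : Fin n → ℕ) (b : ℕ) :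
    NM e (p ^ k) a b = NU e p k a b +
      #{x ∈ Fintype.piFinset (fun _ : Fin n => range (p ^ k)) |
        ∑ i, a i * x i ^ e i ≡ b [MOD p ^ k] ∧ ∀ i, ¬ p ∣ a i → p ∣ x i} := by
  classical
  unfold NM NU
  rw [← Finset.card_filter_add_card_filter_not (s := Finset.filter
    (fun x => ∑ i, a i * x i ^ e i ≡ b [MOD p ^ k])
    (Fintype.piFinset (fun _ : Fin n => range (p ^ k))))
    (fun x => ∃ i, ¬ p ∣ a i ∧ ¬ p ∣ x i), Finset.filter_filter, Finset.filter_filter]
  congr 2
  refine Finset.filter_congr fun x _ => ?_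
  push Not
  rfl

theorem rec_not (hp : p.Prime) (he : ∀ i, 0 < e i) (k : ℕ) (a : Fin n → ℕ) {b : ℕ}
    (hb : ¬ p ∣ b) : NM e (p ^ (k + 1)) a b = NU e p (k + 1) a b := by
  rw [split_Rec, Finset.filter_false_of_mem, Finset.card_empty, add_zero]
  rintro x _ ⟨h1, h2⟩
  apply hb
  have h3 : p ∣ ∑ i, a i * x i ^ e i := by
    refine Finset.dvd_sum fun i _ => ?_
    by_cases h : p ∣ a i
    · exact h.mul_right _
    · exact (dvd_pow (h2 i h) (he i).ne').mul_left _
  have h4 : ∑ i, a i * x i ^ e i ≡ b [MOD p] := h1.of_dvd (dvd_pow_self p (Nat.succ_ne_zero k))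
  exact (Nat.ModEq.dvd_iff h4 dvd_rfl).1 h3

/-- the terms -/
private theorem term_Rec (k : ℕ) (a : Fin n → ℕ) (x y : Fin n → ℕ) (he : ∀ i, 0 < e i)
    (h1 : ∀ i, p ∣ a i → x i ≡ y i [MOD p ^ k]) (h2 : ∀ i, ¬ p ∣ a i → x i = p * y i) :
    ∑ i, a i * x i ^ e i ≡ p * ∑ i, stp e p a i * y i ^ e i [MOD p * p ^ k] := by
  rw [Finset.mul_sum]
  refine Nat.ModEq.sum fun i _ => ?_
  unfold stp
  by_cases h : p ∣ a i
  · rw [if_pos h]
    obtain ⟨c, hc⟩ := h
    rcases Nat.eq_zero_or_pos p with hp0 | hp0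
    · have hc0 : a i = 0 := by rw [hc, hp0, zero_mul]
      rw [hp0, hc0]
      simp
    rw [hc, Nat.mul_div_cancel_left c hp0, mul_assoc]
    have h3 : c * x i ^ e i ≡ c * y i ^ e i [MOD p ^ k] :=
      ((h1 i ⟨c, hc⟩).pow (e i)).mul_left c
    exact h3.mul_left' p
  · rw [if_neg h, h2 i h]
    have h3 : a i * (p * y i) ^ e i = p * (a i * p ^ (e i - 1) * y i ^ e i) := by
      obtain ⟨m, hm⟩ : ∃ m, e i = m + 1 := ⟨e i - 1, by have := he i; omega⟩
      rw [hm, Nat.add_sub_cancel]
      ring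
    rw [h3]

theorem rec_dvd (hp : p.Prime) (he : ∀ i, 0 < e i) (k : ℕ) (a : Fin n → ℕ) {b : ℕ}
    (hb : p ∣ b) : NM e (p ^ (k + 1)) a b =
      NU e p (k + 1) a b + p ^ nd p a * NM e (p ^ k) (stp e p a) (b / p) := by
  classical
  rw [split_Rec]
  congr 1
  have hpk : 0 < p ^ k := Nat.pow_pos hp.pos
  have hZ : #(Fintype.piFinset fun i : Fin n => if p ∣ a i then range p else {0}) =
      p ^ nd p a := by
    rw [Fintype.card_piFinset]
    unfold nd
    rw [← Finset.prod_const, Finset.prod_filter]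
    refine Finset.prod_congr rfl fun i _ => ?_
    split_ifs
    · rw [card_range]
    · rw [card_singleton]
  have hpow : p ^ (k + 1) = p * p ^ k := by rw [pow_succ, mul_comm]
  rw [← hZ, mul_comm]
  unfold NM
  rw [← Finset.card_product]
  have hiff : ∀ x y : Fin n → ℕ, (∀ i, p ∣ a i → x i ≡ y i [MOD p ^ k]) →
      (∀ i, ¬ p ∣ a i → x i = p * y i) →
      (∑ i, a i * x i ^ e i ≡ b [MOD p ^ (k + 1)] ↔
        ∑ i, stp e p a i * y i ^ e i ≡ b / p [MOD p ^ k]) := by
    intro x y h1 h2
    have h3 := term_Rec k a x y he h1 h2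
    have h4 : b = p * (b / p) := (Nat.mul_div_cancel' hb).symm
    rw [hpow]
    constructor
    · intro h
      have h5 : p * ∑ i, stp e p a i * y i ^ e i ≡ p * (b / p) [MOD p * p ^ k] := by
        rw [← h4]
        exact h3.symm.trans h
      exact (Nat.ModEq.mul_left_cancel_iff' hp.ne_zero).1 h5
    · intro h
      rw [h4]
      exact h3.trans (h.mul_left' p)
  symm
  refine Finset.card_nbij'
    (fun q i => if p ∣ a i then q.1 i + p ^ k * q.2 i else p * q.1 i)
    (fun x => (fun i => if p ∣ a i then x i % p ^ k else x i / p,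
      fun i => if p ∣ a i then x i / p ^ k else 0)) ?_ ?_ ?_ ?_
  · rintro ⟨y, z⟩ hq
    simp only [Finset.mem_coe, mem_product, mem_filter, Fintype.mem_piFinset, mem_range] at hq ⊢
    obtain ⟨⟨hy, hy'⟩, hz⟩ := hq
    refine ⟨fun i => ?_, (hiff _ y ?_ ?_).2 hy', fun i hi => ?_⟩
    · have hzi := hz i
      rw [hpow]
      by_cases h : p ∣ a i
      · rw [if_pos h] at hzi ⊢
        have hz' := mem_range.1 hzi
        calc y i + p ^ k * z i < p ^ k + p ^ k * z i := Nat.add_lt_add_right (hy i) _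
          _ = p ^ k * (z i + 1) := by ring
          _ ≤ p ^ k * p := Nat.mul_le_mul_left _ hz'
          _ = p * p ^ k := mul_comm _ _
      · rw [if_neg h]
        exact Nat.mul_lt_mul_of_pos_left (hy i) hp.pos
    · intro i hi
      rw [if_pos hi]
      have h6 : y i + p ^ k * z i ≡ y i + 0 [MOD p ^ k] :=
        Nat.ModEq.add_left _ ((Nat.modEq_zero_iff_dvd).2 (Dvd.intro _ rfl))
      exact h6
    · intro i hi
      rw [if_neg hi]
    · rw [if_neg hi]
      exact Dvd.intro _ rfl
  · intro x hx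
    simp only [Finset.mem_coe, mem_product, mem_filter, Fintype.mem_piFinset, mem_range] at hx ⊢
    obtain ⟨hx1, hx2, hx3⟩ := hx
    refine ⟨⟨fun i => ?_, (hiff x _ ?_ ?_).1 hx2⟩, fun i => ?_⟩
    · by_cases h : p ∣ a i
      · rw [if_pos h]
        exact Nat.mod_lt _ hpk
      · rw [if_neg h]
        have := hx1 i
        rw [hpow] at this
        exact Nat.div_lt_of_lt_mul this
    · intro i hi
      rw [if_pos hi]
      exact (Nat.mod_modEq _ _).symm
    · intro i hi
      rw [if_neg hi]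
      exact (Nat.mul_div_cancel' (hx3 i hi)).symm
    · by_cases h : p ∣ a i
      · rw [if_pos h, if_pos h, mem_range]
        have := hx1 i
        rw [pow_succ] at this
        exact Nat.div_lt_of_lt_mul this
      · rw [if_neg h, if_neg h]
        exact mem_singleton_self _
  · rintro ⟨y, z⟩ hq
    simp only [Finset.mem_coe, mem_product, mem_filter, Fintype.mem_piFinset, mem_range] at hq
    obtain ⟨⟨hy, hy'⟩, hz⟩ := hq
    refine Prod.ext (funext fun i => ?_) (funext fun i => ?_)
    · by_cases h : p ∣ a i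
      · simp only [if_pos h]
        rw [Nat.add_mul_mod_self_left, Nat.mod_eq_of_lt (hy i)]
      · simp only [if_neg h]
        rw [Nat.mul_div_cancel_left _ hp.pos]
    · have hzi := hz i
      by_cases h : p ∣ a i
      · simp only [if_pos h]
        rw [Nat.add_mul_div_left _ _ hpk, Nat.div_eq_of_lt (hy i), zero_add]
      · simp only [if_neg h]
        rw [if_neg h] at hzi
        exact (mem_singleton.1 hzi).symm
  · intro x hx
    simp only [Finset.mem_coe, mem_filter, Fintype.mem_piFinset, mem_range] at hx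
    obtain ⟨hx1, hx2, hx3⟩ := hx
    funext i
    by_cases h : p ∣ a i
    · simp only [if_pos h]
      exact Nat.mod_add_div _ _
    · simp only [if_neg h]
      exact Nat.mul_div_cancel' (hx3 i h)

end Pool.Agent.DgP
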