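import Pool.Agent.DgP.Rec
import Pool.Agent.DgP.Lift

/-!
# Package DgP-SumF: the number of solutions modulo a prime power as a sum

*`nm_sum`*: induction on `k` for all `a`, `b`: `rec_dvd`, `rec_not`, `nm_one`;
`st e p (stp e p a) j = st e p a (j + 1)`, `ex e p a (j + 1) = nd p a + ex e p (stp e p a) j`, and for
`p ∣ b`: `p ^ j ∣ b / p` iff `p ^ (j + 1) ∣ b`, `b / p / p ^ j = b / p ^ (j + 1)`. ∎

*`nu_one`*: `rec_dvd`, `rec_not` with `k = 0` and `nm_one`. *`nu_prime`*: `nu_lift` with `c = 1`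
(`(e i).factorization p = 0`) and `nu_one`. ∎

Difficulty: 0.8 h.
-/

set_option autoImplicit false

namespace Pool.Agent.DgP

open Finset

variable {n : ℕ} {e : Fin n → ℕ} {p : ℕ}

private theorem st_stp_SumF (a : Fin n → ℕ) (j : ℕ) :
    st e p (stp e p a) j = st e p a (j + 1) := by
  induction j with
  | zero => rfl
  | succ j ih =>
    change stp e p (st e p (stp e p a) j) = stp e p (st e p a (j + 1))
    rw [ih]

private theorem ex_succ_SumF (a : Fin n → ℕ) (j : ℕ) :
    ex e p a (j + 1) = nd p a + ex e p (stp e p a) j := by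
  unfold ex
  rw [sum_range_succ', add_comm]
  congr 1
  refine sum_congr rfl fun l _ => ?_
  rw [st_stp_SumF]

theorem nm_sum (hp : p.Prime) (he : ∀ i, 0 < e i) (k : ℕ) (a : Fin n → ℕ) (b : ℕ) :
    NM e (p ^ k) a b =
      (∑ j ∈ range k, if p ^ j ∣ b then
        p ^ ex e p a j * NU e p (k - j) (st e p a j) (b / p ^ j) else 0) +
      if p ^ k ∣ b then p ^ ex e p a k else 0 := by
  induction k generalizing a b with
  | zero =>
    rw [pow_zero, nm_one, range_zero, sum_empty, zero_add, if_pos (one_dvd b)]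
    unfold ex
    rw [range_zero, sum_empty, pow_zero]
  | succ k ih =>
    have h0 : ex e p a 0 = 0 := by
      unfold ex
      rw [range_zero, sum_empty]
    rw [sum_range_succ']
    rw [pow_zero, if_pos (one_dvd b), h0, pow_zero, one_mul, Nat.sub_zero, Nat.div_one]
    change _ = _ + NU e p (k + 1) a b + _
    by_cases hb : p ∣ b
    · rw [rec_dvd hp he k a hb, ih]
      have hdvd : ∀ j, p ^ j ∣ b / p ↔ p ^ (j + 1) ∣ b := by
        intro j
        obtain ⟨c, rfl⟩ := hb
        rw [Nat.mul_div_cancel_left c hp.pos, pow_succ', Nat.mul_dvd_mul_iff_left hp.pos]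
      have hdiv : ∀ j, b / p / p ^ j = b / p ^ (j + 1) := by
        intro j
        rw [Nat.div_div_eq_div_mul, pow_succ']
      have e1 : p ^ nd p a * ∑ j ∈ range k, (if p ^ j ∣ b / p then
          p ^ ex e p (stp e p a) j * NU e p (k - j) (st e p (stp e p a) j) (b / p / p ^ j)
          else 0) = ∑ j ∈ range k, (if p ^ (j + 1) ∣ b then
          p ^ ex e p a (j + 1) * NU e p (k + 1 - (j + 1)) (st e p a (j + 1)) (b / p ^ (j + 1))
          else 0) := by
        rw [mul_sum]
        refine sum_congr rfl fun j _ => ?_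
        by_cases h : p ^ (j + 1) ∣ b
        · rw [if_pos h, if_pos ((hdvd j).2 h), hdiv, st_stp_SumF, ex_succ_SumF,
            pow_add p (nd p a), Nat.add_sub_add_right, mul_assoc]
        · rw [if_neg h, if_neg (fun h' => h ((hdvd j).1 h')), mul_zero]
      have e2 : p ^ nd p a * (if p ^ k ∣ b / p then p ^ ex e p (stp e p a) k else 0) =
          if p ^ (k + 1) ∣ b then p ^ ex e p a (k + 1) else 0 := by
        by_cases h : p ^ (k + 1) ∣ b
        · rw [if_pos h, if_pos ((hdvd k).2 h), ex_succ_SumF, pow_add]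
        · rw [if_neg h, if_neg (fun h' => h ((hdvd k).1 h')), mul_zero]
      rw [mul_add, e1, e2]
      ring
    · rw [rec_not hp he k a hb]
      have hn : ∀ j, ¬ p ^ (j + 1) ∣ b := fun j h =>
        hb ((dvd_pow_self p (Nat.succ_ne_zero j)).trans h)
      rw [if_neg (hn k), sum_eq_zero fun j _ => if_neg (hn j)]
      ring

theorem nu_one (hp : p.Prime) (he : ∀ i, 0 < e i) (a : Fin n → ℕ) (b : ℕ) :
    NU e p 1 a b = NM e p a b - if p ∣ b then p ^ nd p a else 0 := by
  by_cases hb : p ∣ b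
  · have h := rec_dvd hp he 0 a hb
    rw [zero_add, pow_one, pow_zero, nm_one, mul_one] at h
    rw [h, if_pos hb, Nat.add_sub_cancel]
  · have h := rec_not hp he 0 a hb
    rw [zero_add, pow_one] at h
    rw [h, if_neg hb, Nat.sub_zero]

theorem nu_prime (hp : p.Prime) (he : ∀ i, 0 < e i) (hpe : ∀ i, ¬ p ∣ e i) {k : ℕ} (hk : 0 < k)
    (a : Fin n → ℕ) (b : ℕ) : NU e p k a b =
      p ^ ((n - 1) * (k - 1)) * (NM e p a b - if p ∣ b then p ^ nd p a else 0) := by
  have hc : ∀ i, 2 * (e i).factorization p + 1 ≤ 1 := by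
    intro i
    rw [Nat.factorization_eq_zero_of_not_dvd (hpe i)]
  have h := nu_lift hp he hc (k - 1) a b
  rw [Nat.add_sub_cancel' hk] at h
  rw [h, nu_one hp he]

end Pool.Agent.DgP
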